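import Pool.Agent.H65SV.Mk

/-!
# Strong infinite uniform spread: the compressing word
-/

set_option autoImplicit false

namespace Pool.Agent.H65SV

open Filter Topology Pool.Agent.Helper106.VG

/-- the normal points: those outside the levels `|j| < d` -/
def Nrm (s : Hm) (B : Set Cn) (d : ℕ) : Set Cn := {x | ∀ j : ℤ, |j| < d → (s ^ j : Hm) x ∉ B}

theorem nrm_inv (s : Hm) (B : Set Cn) (d : ℕ) : Nrm s⁻¹ B d = Nrm s B d := by
  ext x
  constructor
  · intro h j hj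
    have := h (-j) (by rwa [abs_neg])
    rwa [zinv, neg_neg] at this
  · intro h j hj
    rw [zinv]
    exact h (-j) (by rwa [abs_neg])

/-- the compressing word -/
def wrd (s α : Hm) (d P L : ℕ) : Hm := α * s ^ (P * d) * ((s ^ d * α) ^ L * s ^ d)

theorem nadd (s : Hm) (a b : ℕ) (x : Cn) : (s ^ a : Hm) ((s ^ b : Hm) x) = (s ^ (a + b) : Hm) x := by
  rw [pow_add, mul_ap]

theorem nrm_of_B {s : Hm} {B : Set Cn} {R : ℤ} (hi : Ind s B R) {d m : ℕ} (h1 : d ≤ m)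
    (h2 : (m : ℤ) + d ≤ R) {b : Cn} (hb : b ∈ B) : (s ^ m : Hm) b ∈ Nrm s B d := by
  intro j hj
  rw [znat, zadd]
  rw [abs_lt] at hj
  refine hi _ (by omega) ?_ b hb
  rw [abs_le]
  constructor <;> omega

theorem nrm_of_free {s : Hm} {B : Set Cn} {x : Cn} {M : ℕ}
    (hx : ∀ n, 1 ≤ n → n ≤ M → (s ^ n : Hm) x ∉ B) {d m : ℕ} (h1 : d ≤ m) (h2 : m + d ≤ M) :
    (s ^ m : Hm) x ∈ Nrm s B d := by
  intro j hj
  rw [znat, zadd]
  rw [abs_lt] at hj
  obtain ⟨n, hn⟩ := Int.eq_ofNat_of_zero_le (show 0 ≤ j + (m : ℤ) by omega)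
  rw [hn, ← znat]
  exact hx n (by omega) (by omega)

theorem comp {s α α' : Hm} {B : Set Cn} {d P L M l0 : ℕ} {R : ℤ} (hd : 1 ≤ d)
    (hi : Ind s B R) (hR : (((l0 + P + 1) * d : ℕ) : ℤ) ≤ R)
    (h1 : ∀ x ∈ Nrm s B d, α x = x ∨ α x ∈ B) (hl0 : 1 ≤ l0)
    (h2 : ∀ b ∈ B, α ((s ^ (l0 * d) : Hm) b) ∈ B)
    (h3 : ∀ l, 1 ≤ l → l ≤ l0 → ∀ b ∈ B, α ((s ^ ((l + P) * d) : Hm) b) ∈ B)
    (h4 : ∀ x, (∀ n, 1 ≤ n → n ≤ M → (s ^ n : Hm) x ∉ B) →
      ∃ t, 1 ≤ t ∧ t ≤ L ∧ α ((s ^ (t * d) : Hm) x) ∈ B)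
    (hM : (L + 1) * d ≤ M) (ha : ∀ x ∈ Nrm s B d, α' x = α x)
    (x : Cn) (hx : ∀ n, 1 ≤ n → n ≤ M → (s ^ n : Hm) x ∉ B) :
    wrd s α d P L x ∈ B ∧ wrd s α' d P L x = wrd s α d P L x := by
  have hsucc : ∀ (g : Hm) (t : ℕ), ((s ^ d * g) ^ (t + 1) * s ^ d : Hm) x =
      (s ^ d : Hm) (g (((s ^ d * g) ^ t * s ^ d : Hm) x)) := by
    intro g t
    rw [pow_succ']
    rfl
  have main : ∀ t, t ≤ L →
      ((s ^ d * α') ^ t * s ^ d : Hm) x = ((s ^ d * α) ^ t * s ^ d : Hm) x ∧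
      ((((s ^ d * α) ^ t * s ^ d : Hm) x = (s ^ ((t + 1) * d) : Hm) x ∧
        ∀ t', 1 ≤ t' → t' ≤ t → α ((s ^ (t' * d) : Hm) x) = (s ^ (t' * d) : Hm) x) ∨
       ∃ l b, 1 ≤ l ∧ l ≤ l0 ∧ b ∈ B ∧ ((s ^ d * α) ^ t * s ^ d : Hm) x = (s ^ (l * d) : Hm) b) := by
    intro t
    induction t with
    | zero =>
      intro _
      refine ⟨by simp, Or.inl ⟨by simp, fun t' h1' h2' => by omega⟩⟩
    | succ t ih =>
      intro ht
      obtain ⟨e1, e2⟩ := ih (by omega)
      rw [hsucc, hsucc, e1]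
      have hmem : ((s ^ d * α) ^ t * s ^ d : Hm) x ∈ Nrm s B d := by
        rcases e2 with ⟨e2, _⟩ | ⟨l, b, hl1, hl2, hb, e2⟩
        · rw [e2]
          refine nrm_of_free hx (Nat.le_mul_of_pos_left d (by omega)) ?_
          calc (t + 1) * d + d = (t + 1 + 1) * d := by ring
            _ ≤ (L + 1) * d := Nat.mul_le_mul_right d (by omega)
            _ ≤ M := hM
        · rw [e2]
          refine nrm_of_B hi (Nat.le_mul_of_pos_left d (by omega)) ?_ hb
          have : l * d + d ≤ (l0 + P + 1) * d := by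
            calc l * d + d = (l + 1) * d := by ring
              _ ≤ (l0 + P + 1) * d := Nat.mul_le_mul_right d (by omega)
          push_cast at hR ⊢
          have := (Nat.cast_le (α := ℤ)).2 this
          push_cast at this
          linarith
      refine ⟨by rw [ha _ hmem], ?_⟩
      rcases h1 _ hmem with hf | hf
      · rw [hf]
        rcases e2 with ⟨e2, e3⟩ | ⟨l, b, hl1, hl2, hb, e2⟩
        · left
          rw [e2] at hf ⊢
          refine ⟨by rw [nadd]; congr 2; ring, fun t' h1' h2' => ?_⟩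
          rcases Nat.lt_or_ge t' (t + 1) with h | h
          · exact e3 t' h1' (by omega)
          · obtain rfl : t' = t + 1 := by omega
            exact hf
        · right
          rw [e2] at hf hmem ⊢
          have hne : l ≠ l0 := by
            rintro rfl
            have := h2 b hb
            rw [hf] at this
            have h0 := hmem 0 (by simp; omega)
            rw [zz] at h0
            exact h0 this
          refine ⟨l + 1, b, by omega, by omega, hb, ?_⟩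
          rw [nadd]
          congr 2
          ring
      · right
        exact ⟨1, _, le_rfl, hl0, hf, by rw [one_mul]⟩
  obtain ⟨e1, e2⟩ := main L le_rfl
  obtain ⟨l, b, hl1, hl2, hb, e3⟩ : ∃ l b, 1 ≤ l ∧ l ≤ l0 ∧ b ∈ B ∧
      ((s ^ d * α) ^ L * s ^ d : Hm) x = (s ^ (l * d) : Hm) b := by
    rcases e2 with ⟨_, e3⟩ | h
    · exfalso
      obtain ⟨t, ht1, ht2, ht3⟩ := h4 x hx
      rw [e3 t ht1 ht2] at ht3
      refine hx (t * d) (Nat.mul_pos ht1 hd) ?_ ht3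
      calc t * d ≤ (L + 1) * d := Nat.mul_le_mul_right d (by omega)
        _ ≤ M := hM
    · exact h
  have hw : ∀ g : Hm, wrd s g d P L x = g ((s ^ (P * d) : Hm) (((s ^ d * g) ^ L * s ^ d : Hm) x)) :=
    fun g => rfl
  have hq : (s ^ (P * d) : Hm) (((s ^ d * α) ^ L * s ^ d : Hm) x) = (s ^ ((l + P) * d) : Hm) b := by
    rw [e3, nadd]
    congr 2
    ring
  have hmem : (s ^ ((l + P) * d) : Hm) b ∈ Nrm s B d := by
    refine nrm_of_B hi (Nat.le_mul_of_pos_left d (by omega)) ?_ hb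
    have : (l + P) * d + d ≤ (l0 + P + 1) * d := by
      calc (l + P) * d + d = (l + P + 1) * d := by ring
        _ ≤ (l0 + P + 1) * d := Nat.mul_le_mul_right d (by omega)
    have := (Nat.cast_le (α := ℤ)).2 this
    push_cast at this hR ⊢
    linarith
  rw [hw, hw, e1, hq]
  exact ⟨h3 l hl1 hl2 b hb, by rw [ha _ hmem]⟩

end Pool.Agent.H65SV
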