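import Pool.Agent.H65SV.Gen

/-!
# Strong infinite uniform spread: assembly
-/

set_option autoImplicit false

namespace Pool.Agent.H65SV

open Filter Topology Pool.Agent.Helper106.VG

theorem supp_in {g : Hm} {B : Set Cn} (h : ∀ x, x ∉ B → g x = x) {x : Cn} (hx : x ∈ B) : g x ∈ B := by
  by_contra hcon
  have := g.injective (h _ hcon)
  rw [this] at hcon
  exact hcon hx

theorem supp_inv {g : Hm} {B : Set Cn} (h : ∀ x, x ∉ B → g x = x) : ∀ x, x ∉ B → g⁻¹ x = x := by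
  intro x hx
  calc g⁻¹ x = g⁻¹ (g x) := by rw [h x hx]
    _ = x := inv_ap g x

/-- the correction on the special levels -/
theorem corr {G : Subgroup Hm} {s : Hm} (hsG : s ∈ G) {B : Set Cn} {R : ℤ} (hi : Ind s B R)
    (τ : ℕ → Hm) (hτG : ∀ e, τ e ∈ G) (hτ : ∀ e, ∀ x, x ∉ B → τ e x = x) (E : ℕ)
    (hR : 2 * (E : ℤ) + 2 ≤ R) :
    ∃ ρ ∈ G, (∀ e < E, ∀ y ∈ B, ρ ((s ^ (-((e : ℤ) + 1)) : Hm) y) =
        (s ^ (-((e : ℤ) + 1)) : Hm) ((τ e)⁻¹ y)) ∧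
      ∀ x, (∀ e < E, (s ^ ((e : ℤ) + 1) : Hm) x ∉ B) → ρ x = x := by
  induction E with
  | zero => exact ⟨1, G.one_mem, fun e he => absurd he (Nat.not_lt_zero e), fun x _ => rfl⟩
  | succ n ih =>
    obtain ⟨ρ, hρG, h1, h2⟩ := ih (by push_cast at hR ⊢; omega)
    have hτ' := supp_inv (hτ n)
    refine ⟨ρ * (s ^ (-((n : ℤ) + 1)) * (τ n)⁻¹ * s ^ ((n : ℤ) + 1)),
      G.mul_mem hρG (G.mul_mem (G.mul_mem (G.zpow_mem hsG _) (G.inv_mem (hτG n)))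
        (G.zpow_mem hsG _)), ?_, ?_⟩
    · intro e he y hy
      show ρ ((s ^ (-((n : ℤ) + 1)) : Hm) ((τ n)⁻¹ ((s ^ ((n : ℤ) + 1) : Hm)
        ((s ^ (-((e : ℤ) + 1)) : Hm) y)))) = _
      rw [zadd]
      rcases Nat.lt_succ_iff_lt_or_eq.1 he with h | rfl
      · have e1 : (s ^ ((n : ℤ) + 1 + -((e : ℤ) + 1)) : Hm) y ∉ B := by
          refine hi _ (by omega) ?_ y hy
          rw [abs_le]
          push_cast at hR
          constructor <;> omega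
        rw [hτ' _ e1, zadd, show -((n : ℤ) + 1) + ((n : ℤ) + 1 + -((e : ℤ) + 1)) = -((e : ℤ) + 1) by ring]
        exact h1 e h y hy
      · rw [add_neg_cancel, zz]
        have e1 : (τ e)⁻¹ y ∈ B := supp_in hτ' hy
        refine h2 _ fun e' he' => ?_
        rw [zadd]
        refine hi _ (by omega) ?_ _ e1
        rw [abs_le]
        push_cast at hR
        constructor <;> omega
    · intro x hx
      show ρ ((s ^ (-((n : ℤ) + 1)) : Hm) ((τ n)⁻¹ ((s ^ ((n : ℤ) + 1) : Hm) x))) = x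
      rw [hτ' _ (hx n (Nat.lt_succ_self n)), zadd, neg_add_cancel, zz]
      exact h2 x fun e he => hx e (Nat.lt_succ_of_lt he)

/-- the conjugate of a controlled element by the compressing word -/
theorem vact {H : Subgroup Hm} {B : Set Cn} {w w' v u : Hm} {Fr : Set Cn}
    (hBF : B ⊆ Fr) (hw : ∀ x ∈ Fr, w x ∈ B ∧ w' x = w x)
    (hu : ∀ x, x ∉ B → u x = x) (hvτ : ∀ y ∈ B, v y = w (u (w⁻¹ y)))
    (hw' : w' ∈ H) (hv : v ∈ H) :
    ∃ V ∈ H, ∀ x ∈ Fr, V x = u x := by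
  refine ⟨w'⁻¹ * v * w', H.mul_mem (H.mul_mem (H.inv_mem hw') hv) hw', fun x hx => ?_⟩
  show w'⁻¹ (v (w' x)) = u x
  obtain ⟨e1, e2⟩ := hw x hx
  rw [e2, hvτ _ e1, inv_ap]
  have hux : u x ∈ Fr := by
    by_cases h : x ∈ B
    · exact hBF (supp_in hu h)
    · rw [hu x h]; exact hx
  rw [← (hw _ hux).2, inv_ap]

theorem link (hunion : C_union) (hconj : C_conj) {G : Subgroup Hm} (hv : Vigorous G)
    (hs : IsSimpleGroup G) {L : Subgroup Hm} {s a : Hm} (hsG : s ∈ G) (haG : a ∈ G) (hsL : s ∈ L)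
    (haL : a ∈ L) {B : Set Cn} (hB : IsClopen B) (hBne : B.Nonempty) (hL : Alt G B ≤ L) (j : ℕ)
    (h1 : ∀ b ∈ B, a ((s ^ j : Hm) b) ∈ B) (h2 : ∀ b ∈ B, a ((s ^ (j + 1) : Hm) b) ∈ B)
    {N : ℕ} (hcov : ∀ x, ∃ i : ℤ, |i| ≤ N ∧ (s ^ i : Hm) x ∈ B) : Alt G Set.univ ≤ L := by
  set Y : Set Cn := (a⁻¹ : Hm) '' B with hY
  have hYc : IsClopen Y := TE2.clopen_img _ hB
  have hYL : Alt G Y ≤ L := TE2.conjL hconj L B hL a⁻¹ (G.inv_mem haG) (L.inv_mem haL)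
  have hYm : ∀ x, x ∈ Y ↔ a x ∈ B := by
    intro x
    rw [hY, TE2.mem_img_iff, inv_inv]
  have hYs : ∀ m : ℤ, IsClopen ((s ^ m : Hm) '' Y) ∧ Alt G ((s ^ m : Hm) '' Y) ≤ L := fun m =>
    ⟨TE2.clopen_img _ hYc, TE2.conjL hconj L Y hYL (s ^ m) (G.zpow_mem hsG m) (L.zpow_mem hsL m)⟩
  obtain ⟨b0, hb0⟩ := hBne
  have hstep : ∀ m : ℤ, (s ^ (m + (j : ℤ) + 1) : Hm) b0 ∈ (s ^ m : Hm) '' Y ∧
      (s ^ (m + (j : ℤ) + 1) : Hm) b0 ∈ (s ^ (m + 1) : Hm) '' Y := by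
    intro m
    constructor
    · refine ⟨(s ^ (j + 1) : Hm) b0, (hYm _).2 (h2 b0 hb0), ?_⟩
      rw [znat, zadd]
      congr 2
      push_cast
      ring
    · refine ⟨(s ^ j : Hm) b0, (hYm _).2 (h1 b0 hb0), ?_⟩
      rw [znat, zadd]
      congr 2
      ring
  have hun : ∀ n : ℕ, ∀ m : ℤ, ∃ W : Set Cn, IsClopen W ∧ Alt G W ≤ L ∧
      ∀ i : ℤ, m ≤ i → i ≤ m + n → (s ^ i : Hm) '' Y ⊆ W := by
    intro n m
    induction n with
    | zero =>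
      refine ⟨(s ^ m : Hm) '' Y, (hYs m).1, (hYs m).2, fun i h1 h2 => ?_⟩
      obtain rfl : i = m := by push_cast at h2; omega
      exact le_rfl
    | succ n ih =>
      obtain ⟨W, hW1, hW2, hW3⟩ := ih
      refine ⟨W ∪ (s ^ (m + n + 1) : Hm) '' Y, hW1.union (hYs _).1,
        (hunion G hv hs _ _ hW1 (hYs _).1 ?_).trans (sup_le hW2 (hYs _).2), fun i e1 e2 => ?_⟩
      · obtain ⟨c1, c2⟩ := hstep (m + n)
        exact ⟨_, hW3 (m + n) (by omega) le_rfl c1, c2⟩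
      · rcases le_or_gt i (m + n) with h | h
        · exact (hW3 i e1 h).trans Set.subset_union_left
        · obtain rfl : i = m + n + 1 := by push_cast at e2; omega
          exact Set.subset_union_right
  obtain ⟨W, hW1, hW2, hW3⟩ := hun (2 * N) (-(N : ℤ) - j)
  refine (alt_mono fun x _ => ?_).trans hW2
  obtain ⟨i, hi, hx⟩ := hcov x
  rw [abs_le] at hi
  refine hW3 (-i - j) (by omega) (by push_cast; omega) ⟨(s ^ j : Hm) ((s ^ i : Hm) x), (hYm _).2 (h1 _ hx), ?_⟩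
  rw [znat, zadd, zadd]
  rw [show -i - (j : ℤ) + (j : ℤ) + i = 0 by ring, zz]

end Pool.Agent.H65SV
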