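import Pool.Agent.H65SV.Plc
import Pool.Agent.Helper106.VG.C8
import Pool.Agent.Helper106.VG.E2

/-!
# Strong infinite uniform spread: generation of the group of a clopen set by commutators
-/

set_option autoImplicit false

namespace Pool.Agent.H65SV

open Filter Topology Pool.Agent.Helper106.VG

theorem alt_mono {G : Subgroup Hm} {A B : Set Cn} (h : A ⊆ B) : Alt G A ≤ Alt G B := by
  refine Subgroup.closure_mono ?_
  rintro t ⟨D, e, h1, h2, h3⟩
  exact ⟨D, e, h1, h2, fun i hi => (h3 i hi).trans h⟩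

theorem gens (hroom : A_room) (himg : B_img) (hcomp : B_comp) (htop : C_top) (hsupp : C_supp)
    (hunion : C_union) (hcopy : C_copy) (hfg : C_fg) (hcompress : C_compress)
    {G : Subgroup Hm} (hv : Vigorous G) (hs : IsSimpleGroup G) (hf : Group.FG G) :
    ∃ r : ℕ, ∀ B : Set Cn, IsClopen B → B.Nonempty → ∃ u v : ℕ → Hm,
      (∀ c, u c ∈ G) ∧ (∀ c, v c ∈ G) ∧ (∀ c, ∀ x, x ∉ B → u c x = x) ∧
      (∀ c, ∀ x, x ∉ B → v c x = x) ∧
      ∀ L : Subgroup Hm, (∀ c < r, cm (u c) (v c) ∈ L) → Alt G B ≤ L := by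
  classical
  obtain ⟨n, u0, v0, huv, hgen⟩ := hfg G hv hs hf
  refine ⟨2 * n, fun B hB hBne => ?_⟩
  obtain ⟨h, hh1, -, hh2⟩ := hcompress G hv 1 B hB hBne
  obtain ⟨hloc, hinj, hrange⟩ := hh1 0 (by omega)
  have hrest : (B \ Set.range (h 0)).Nonempty := by
    obtain ⟨x, hx1, hx2⟩ := hh2
    refine ⟨x, hx1, fun hx => hx2 ?_⟩
    simp only [Set.mem_iUnion]
    exact ⟨0, by omega, hx⟩
  set F := Set.range (h 0) with hF
  have hFc : IsClopen F := by
    rw [hF, ← Set.image_univ]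
    exact himg G _ _ hloc isClopen_univ
  have hFne : F.Nonempty := ⟨_, fun _ => false, rfl⟩
  obtain ⟨x0, -, -, O, hO, hxO, hOF, -, hOne⟩ := hroom F ∅ hFc.isOpen hFne Set.finite_empty
  obtain ⟨y0, hy0F, hy0O⟩ : ∃ y ∈ F, y ∉ O := by
    by_contra hcon
    push Not at hcon
    exact hOne (Set.Subset.antisymm hOF hcon)
  obtain ⟨g, hg, hgD, hgfix⟩ := hv B ((B \ F) ∪ O) F hB ((hB.diff hFc).union hO) hFc
    ⟨x0, Or.inr hxO⟩ hFne
    ⟨Set.union_subset Set.sdiff_subset (hOF.trans hrange), fun hcon => by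
      rcases hcon (hrange hy0F) with h1 | h1
      · exact h1.2 hy0F
      · exact hy0O h1⟩
    ⟨hrange, fun hcon => by
      obtain ⟨z, hz1, hz2⟩ := hrest
      exact hz2 (hcon hz1)⟩
  have hginv : ∀ x, x ∉ B → g⁻¹ x = x := by
    intro x hx
    have := hgfix x hx
    calc g⁻¹ x = g⁻¹ (g x) := by rw [this]
      _ = x := inv_ap g x
  have hgB : ∀ x, x ∈ B → g⁻¹ x ∈ B := by
    intro x hx
    by_contra hcon
    have := hgfix _ hcon
    rw [ap_inv] at this
    exact hcon (this ▸ hx)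
  set h2 : Cn → Cn := (g⁻¹ : Hm) ∘ h 0 with hh2def
  have h2loc : Loc G h2 Set.univ := hcomp G (h 0) (g⁻¹ : Hm) Set.univ hloc
    (fun x _ => ⟨g⁻¹, G.inv_mem hg, Filter.Eventually.of_forall fun _ => rfl⟩)
  have h2inj : Function.Injective h2 := (g⁻¹ : Hm).injective.comp hinj
  have h2range : Set.range h2 ⊆ B := by
    rintro _ ⟨z, rfl⟩
    exact hgB _ (hrange ⟨z, rfl⟩)
  have h2c : IsClopen (Set.range h2) := by
    rw [← Set.image_univ]
    exact himg G _ _ h2loc isClopen_univ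
  have hD : (B \ F) ∪ O ⊆ Set.range h2 := by
    intro x hx
    obtain ⟨z, hz⟩ := hgD ⟨x, hx, rfl⟩
    refine ⟨z, ?_⟩
    show g⁻¹ (h 0 z) = x
    rw [hz, inv_ap]
  obtain ⟨hcp1, hcp2⟩ := hcopy G hv hs (h 0) hloc hinj
  obtain ⟨hdp1, hdp2⟩ := hcopy G hv hs h2 h2loc h2inj
  have hex1 : ∀ c, ∃ p q : Hm, c < n → p ∈ TriSet G F ∧ q ∈ TriSet G F ∧
      Cpy (h 0) (u0 c) p ∧ Cpy (h 0) (v0 c) q := by
    intro c
    by_cases hc : c < n
    · obtain ⟨p, hp1, hp2⟩ := hcp1 _ (huv c hc).1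
      obtain ⟨q, hq1, hq2⟩ := hcp1 _ (huv c hc).2
      exact ⟨p, q, fun _ => ⟨hp1, hq1, hp2, hq2⟩⟩
    · exact ⟨1, 1, fun h => absurd h hc⟩
  have hex2 : ∀ c, ∃ p q : Hm, c < n → p ∈ TriSet G (Set.range h2) ∧ q ∈ TriSet G (Set.range h2) ∧
      Cpy h2 (u0 c) p ∧ Cpy h2 (v0 c) q := by
    intro c
    by_cases hc : c < n
    · obtain ⟨p, hp1, hp2⟩ := hdp1 _ (huv c hc).1
      obtain ⟨q, hq1, hq2⟩ := hdp1 _ (huv c hc).2
      exact ⟨p, q, fun _ => ⟨hp1, hq1, hp2, hq2⟩⟩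
    · exact ⟨1, 1, fun h => absurd h hc⟩
  choose p1 q1 hpq1 using hex1
  choose p2 q2 hpq2 using hex2
  have triG : ∀ (A : Set Cn) (t : Hm), t ∈ TriSet G A → t ∈ G := by
    intro A t ht
    have h1 : t ∈ Alt G A := Subgroup.subset_closure ht
    have h2 := alt_mono (Set.subset_univ A) h1
    rwa [htop G hv hs] at h2
  have trisupp : ∀ (A : Set Cn) (t : Hm), A ⊆ B → t ∈ TriSet G A → ∀ x, x ∉ B → t x = x :=
    fun A t hA ht x hx => hsupp G A t (Subgroup.subset_closure ht) x fun h => hx (hA h)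
  refine ⟨fun c => if c < n then p1 c else if c < 2 * n then p2 (c - n) else 1,
    fun c => if c < n then q1 c else if c < 2 * n then q2 (c - n) else 1, ?_, ?_, ?_, ?_, ?_⟩
  · intro c
    dsimp only
    split_ifs with e1 e2
    · exact triG _ _ (hpq1 c e1).1
    · exact triG _ _ (hpq2 (c - n) (by omega)).1
    · exact G.one_mem
  · intro c
    dsimp only
    split_ifs with e1 e2
    · exact triG _ _ (hpq1 c e1).2.1
    · exact triG _ _ (hpq2 (c - n) (by omega)).2.1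
    · exact G.one_mem
  · intro c x hx
    dsimp only
    split_ifs with e1 e2
    · exact trisupp _ _ hrange (hpq1 c e1).1 x hx
    · exact trisupp _ _ h2range (hpq2 (c - n) (by omega)).1 x hx
    · rfl
  · intro c x hx
    dsimp only
    split_ifs with e1 e2
    · exact trisupp _ _ hrange (hpq1 c e1).2.1 x hx
    · exact trisupp _ _ h2range (hpq2 (c - n) (by omega)).2.1 x hx
    · rfl
  · intro L hL
    have a1 : Alt G F ≤ L := by
      refine hcp2 {r | ∃ i < n, r = cm (u0 i) (v0 i)} L hgen ?_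
      rintro _ ⟨i, hi, rfl⟩
      have := hL i (by omega)
      simp only [if_pos hi] at this
      refine ⟨_, this, ?_⟩
      obtain ⟨_, _, c1, c2⟩ := hpq1 i hi
      exact TC8.cpy_mul (TC8.cpy_mul (TC8.cpy_mul c1 c2) (TC8.cpy_inv c1)) (TC8.cpy_inv c2)
    have a2 : Alt G (Set.range h2) ≤ L := by
      refine hdp2 {r | ∃ i < n, r = cm (u0 i) (v0 i)} L hgen ?_
      rintro _ ⟨i, hi, rfl⟩
      have := hL (i + n) (by omega)
      have e1 : ¬ i + n < n := by omega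
      have e2 : i + n < 2 * n := by omega
      simp only [if_neg e1, if_pos e2, Nat.add_sub_cancel] at this
      refine ⟨_, this, ?_⟩
      obtain ⟨_, _, c1, c2⟩ := hpq2 i hi
      exact TC8.cpy_mul (TC8.cpy_mul (TC8.cpy_mul c1 c2) (TC8.cpy_inv c1)) (TC8.cpy_inv c2)
    have hcov : B ⊆ F ∪ Set.range h2 := by
      intro x hx
      by_cases hxF : x ∈ F
      · exact Or.inl hxF
      · exact Or.inr (hD (Or.inl ⟨hx, hxF⟩))
    exact (alt_mono hcov).trans ((hunion G hv hs _ _ hFc h2c ⟨x0, hOF hxO, hD (Or.inr hxO)⟩).trans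
      (sup_le a1 a2))

end Pool.Agent.H65SV
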