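import Pool.Agent.H65SV.Fin
import Pool.Agent.Helper106.VG.C1
import Pool.Agent.Helper106.VG.TC2
import Pool.Agent.Helper106.VG.C3
import Pool.Agent.Helper106.VG.C4
import Pool.Agent.Helper106.VG.C5
import Pool.Agent.Helper106.VG.C6
import Pool.Agent.Helper106.VG.C7

/-!
# Strong infinite uniform spread: the main theorem
-/

set_option autoImplicit false

namespace Pool.Agent.H65SV

open Filter Topology Pool.Agent.Helper106.VG

theorem fp_mul {k : ℕ} (hk : 0 < k) {d : ℕ} (hd : 0 < d) (l : ℕ) :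
    fp k hk d (l * d) = gp k hk l := by
  unfold fp
  rw [Nat.mul_div_cancel _ hd]

theorem fp_mul_add {k : ℕ} (hk : 0 < k) {d : ℕ} (hd : 1 < d) (l : ℕ) :
    fp k hk d (l * d + 1) = gp k hk l := by
  unfold fp
  rw [Nat.add_comm, Nat.add_mul_div_right _ _ (by omega), Nat.div_eq_of_lt hd, Nat.zero_add]

/-- For every element `s` without finite orbit, every finite set of nontrivial elements is
simultaneously conjugate to a set of elements which generate `G` together with `s`. -/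
theorem core {G : Subgroup Hm} (hv : Vigorous G) (hs : IsSimpleGroup G) (hf : Group.FG G)
    {s : Hm} (hsG : s ∈ G) (hap : ∀ x, ∀ n : ℕ, 0 < n → (s ^ n : Hm) x ≠ x) {k : ℕ} (hk : 0 < k)
    (α : Fin k → Hm) (hαG : ∀ i, α i ∈ G) (hα : ∀ i, α i ≠ 1) :
    ∃ γ ∈ G, ∀ i, G ≤ Subgroup.closure {(γ⁻¹ * α i * γ : Hm), s} := by
  classical
  have hgerm := c_germ a_room b_move
  have htri := c_tri hgerm a_ci a_room
  have htop := c_top b_small htri
  have hext := c_ext htri b_small b_img b_comp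
  have hunion := c_union a_ci a_room b_img b_small htri
  have hperf := c_perf a_ci a_room b_img b_small c_comm htri
  have hfg := c_fg htop hperf
  have hcompress := c_compress b_small
  have hcopy := c_copy b_inv b_comp htri
  obtain ⟨r, hr⟩ := gens a_room b_img b_comp htop c_supp hunion hcopy hfg hcompress hv hs hf
  set q : ℕ := 2 * (r + 1) with hq
  set E : ℕ := k * q with hE
  set d : ℕ := E + 1 with hd
  set L : ℕ := 2 * Lc k with hL
  set N1 : ℕ := (k + k * k) * d with hN1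
  set M : ℕ := (L + 1) * d with hM
  set N : ℕ := 2 * N1 + 2 * M + 4 * d with hN
  have hq1 : 1 ≤ q := by omega
  have hE1 : 1 ≤ E := Nat.mul_pos hk (by omega)
  have hd2 : 1 < d := by omega
  have hdpos : 0 < d := by omega
  have hkk : k * 1 ≤ k * k := Nat.mul_le_mul_left k hk
  obtain ⟨B, hB, hi, hcov⟩ := marker s hap N
  obtain ⟨hr1, hr2⟩ := rec_of hcov
  have hBne : B.Nonempty := by
    obtain ⟨j, -, hj⟩ := hcov (fun _ => false)
    exact ⟨_, hj⟩
  obtain ⟨u, v, huG, hvG, hus, hvs, hgen⟩ := hr B hB hBne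
  set idx : ℕ → Fin k := fun e => ⟨(e / q) % k, Nat.mod_lt _ hk⟩ with hidx
  obtain ⟨γ1, hγ1, A1, A2, A3⟩ := place htop hext hv hs hk α hαG hα s hsG B hB hBne (E := E) hi
    (by rw [hN]; push_cast; omega) (ty s B k hk d N1) (ty_loc hB hr1 hr2 k hk d N1) idx
  rw [← hd] at A1 A2
  set β : Fin k → Hm := fun i => γ1⁻¹ * α i * γ1 with hβ
  have hβG : ∀ i, β i ∈ G := fun i => G.mul_mem (G.mul_mem (G.inv_mem hγ1) (hαG i)) hγ1
  have hRN1 : 2 * (N1 : ℤ) ≤ (N : ℤ) := by rw [hN]; push_cast; omega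
  -- levels of type `i`
  have tF : ∀ (i : Fin k) (m : ℕ), d ≤ m → m ≤ N1 → fp k hk d m = i → ∀ b ∈ B,
      (s ^ m : Hm) b ∈ Nrm s B d ∧ β i ((s ^ m : Hm) b) ∈ B := by
    intro i m h1 h2 h3 b hb
    have hn : (s ^ m : Hm) b ∈ Nrm s B d := nrm_of_B hi h1 (by rw [hN]; push_cast; omega) hb
    refine ⟨hn, A2 i _ hn ?_⟩
    rw [ty_fwd hr1 hr2 hk hi hRN1 (by omega) h2 hb, h3]
  have tB : ∀ (i : Fin k) (m : ℕ), d ≤ m → m ≤ N1 → fp k hk d m = i → ∀ b ∈ B,
      β i ((s⁻¹ ^ m : Hm) b) ∈ B := by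
    intro i m h1 h2 h3 b hb
    have hn : (s⁻¹ ^ m : Hm) b ∈ Nrm s⁻¹ B d :=
      nrm_of_B hi.inv h1 (by rw [hN]; push_cast; omega) hb
    rw [nrm_inv] at hn
    refine A2 i _ hn ?_
    rw [ty_bwd hr1 hk hi hRN1 (by omega) h2 hb, h3]
  have hle : ∀ l, l ≤ k + k * k → l * d ≤ N1 := fun l hl => Nat.mul_le_mul_right d hl
  have hld : ∀ l, 1 ≤ l → d ≤ l * d := fun l hl => Nat.le_mul_of_pos_left d hl
  have hPi : ∀ i : Fin k, k * ((i : ℕ) + 1) ≤ k * k := fun i => Nat.mul_le_mul_left k i.2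
  set FrF : Set Cn := {x | ∀ n, 1 ≤ n → n ≤ M → (s ^ n : Hm) x ∉ B} with hFrF
  set FrB : Set Cn := {x | ∀ n, 1 ≤ n → n ≤ M → (s⁻¹ ^ n : Hm) x ∉ B} with hFrB
  have hRbig : ∀ i : Fin k, (((((i : ℕ) + 1) + k * ((i : ℕ) + 1) + 1) * d : ℕ) : ℤ) ≤ (N : ℤ) := by
    intro i
    have h1 : (((i : ℕ) + 1) + k * ((i : ℕ) + 1) + 1) * d ≤ (k + k * k + 1) * d :=
      Nat.mul_le_mul_right d (by have := hPi i; have := i.2; omega)
    have h2 : (k + k * k + 1) * d = N1 + d := by rw [hN1]; ring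
    exact_mod_cast (show (((i : ℕ) + 1) + k * ((i : ℕ) + 1) + 1) * d ≤ N by omega)
  have cF : ∀ (i : Fin k) (a' : Hm), (∀ x ∈ Nrm s B d, a' x = β i x) → ∀ x ∈ FrF,
      wrd s (β i) d (k * ((i : ℕ) + 1)) L x ∈ B ∧
      wrd s a' d (k * ((i : ℕ) + 1)) L x = wrd s (β i) d (k * ((i : ℕ) + 1)) L x := by
    intro i a' ha' x hx
    refine comp hdpos hi (hRbig i) (A1 i) (by omega) ?_ ?_ ?_ le_rfl ha' x hx
    · intro b hb
      exact (tF i _ (hld _ (by omega)) (hle _ (by have := i.2; omega))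
        (by rw [fp_mul hk hdpos, gp_a]) b hb).2
    · intro l h1 h2 b hb
      have := hPi i
      have := i.2
      exact (tF i _ (hld _ (by omega)) (hle _ (by omega))
        (by rw [fp_mul hk hdpos, gp_b hk i l h1 (by omega)]) b hb).2
    · intro y hy
      obtain ⟨t, t1, t2, t3⟩ := capF hr1 hr2 hk (N1 := N1) hdpos
        (show 2 * Lc k * d ≤ M by rw [hM]; exact Nat.mul_le_mul_right d (by omega)) i y hy
      refine ⟨t, t1, t2, A2 i _ (nrm_of_free hy (hld _ t1) ?_) t3⟩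
      calc t * d + d = (t + 1) * d := by ring
        _ ≤ (L + 1) * d := Nat.mul_le_mul_right d (by omega)
  have cB : ∀ (i : Fin k) (a' : Hm), (∀ x ∈ Nrm s B d, a' x = β i x) → ∀ x ∈ FrB,
      wrd s⁻¹ (β i) d (k * ((i : ℕ) + 1)) L x ∈ B ∧
      wrd s⁻¹ a' d (k * ((i : ℕ) + 1)) L x = wrd s⁻¹ (β i) d (k * ((i : ℕ) + 1)) L x := by
    intro i a' ha' x hx
    refine comp hdpos hi.inv (hRbig i) (by rw [nrm_inv]; exact A1 i) (by omega) ?_ ?_ ?_ le_rfl
      (by rw [nrm_inv]; exact ha') x hx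
    · intro b hb
      exact tB i _ (hld _ (by omega)) (hle _ (by have := i.2; omega))
        (by rw [fp_mul hk hdpos, gp_a]) b hb
    · intro l h1 h2 b hb
      have := hPi i
      have := i.2
      exact tB i _ (hld _ (by omega)) (hle _ (by omega))
        (by rw [fp_mul hk hdpos, gp_b hk i l h1 (by omega)]) b hb
    · intro y hy
      obtain ⟨t, t1, t2, t3⟩ := capB hr1 hr2 hk (N1 := N1) hdpos
        (show 2 * Lc k * d ≤ M by rw [hM]; exact Nat.mul_le_mul_right d (by omega)) i y hy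
      refine ⟨t, t1, t2, A2 i _ ?_ t3⟩
      rw [← nrm_inv]
      refine nrm_of_free hy (hld _ t1) ?_
      calc t * d + d = (t + 1) * d := by ring
        _ ≤ (L + 1) * d := Nat.mul_le_mul_right d (by omega)
  have hBF : B ⊆ FrF := fun b hb n h1 h2 => ind_nat hi h1 (by rw [hN]; push_cast; omega) hb
  have hBB : B ⊆ FrB := fun b hb n h1 h2 => ind_nat hi.inv h1 (by rw [hN]; push_cast; omega) hb
  have wG : ∀ (t : Hm), t ∈ G → ∀ i P, wrd t (β i) d P L ∈ G := fun t ht i P =>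
    G.mul_mem (G.mul_mem (hβG i) (G.pow_mem ht _))
      (G.mul_mem (G.pow_mem (G.mul_mem (G.pow_mem ht _) (hβG i)) _) (G.pow_mem ht _))
  -- conjugates of elements supported in `B`
  have hcsupp : ∀ (w t : Hm), (∀ b ∈ B, w b ∈ B) → (∀ x, x ∉ B → t x = x) →
      ∀ x, x ∉ B → (w * t * w⁻¹ : Hm) x = x := by
    intro w t hw ht x hx
    show w (t (w⁻¹ x)) = x
    have h1 : w⁻¹ x ∉ B := by
      intro h
      have := hw _ h
      rw [ap_inv] at this
      exact hx this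
    rw [ht _ h1, ap_inv]
  set τc : ℕ → Hm := fun e => if e % q < r + 1 then
      wrd s (β (idx e)) d (k * (((idx e) : ℕ) + 1)) L * u (e % q) *
        (wrd s (β (idx e)) d (k * (((idx e) : ℕ) + 1)) L)⁻¹
    else wrd s⁻¹ (β (idx e)) d (k * (((idx e) : ℕ) + 1)) L * v (e % q - (r + 1)) *
        (wrd s⁻¹ (β (idx e)) d (k * (((idx e) : ℕ) + 1)) L)⁻¹ with hτc
  have hτG : ∀ e, τc e ∈ G := by
    intro e
    simp only [hτc]
    split_ifs
    · exact G.mul_mem (G.mul_mem (wG _ hsG _ _) (huG _)) (G.inv_mem (wG _ hsG _ _))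
    · exact G.mul_mem (G.mul_mem (wG _ (G.inv_mem hsG) _ _) (hvG _))
        (G.inv_mem (wG _ (G.inv_mem hsG) _ _))
  have hτs : ∀ e, ∀ x, x ∉ B → τc e x = x := by
    intro e
    simp only [hτc]
    split_ifs
    · exact hcsupp _ _ (fun b hb => (cF _ _ (fun _ _ => rfl) b (hBF hb)).1) (hus _)
    · exact hcsupp _ _ (fun b hb => (cB _ _ (fun _ _ => rfl) b (hBB hb)).1) (hvs _)
  obtain ⟨ρ, hρG, hρ1, hρ2⟩ := corr hsG hi τc hτG hτs E (by rw [hN]; push_cast; omega)
  have hρN : ∀ x ∈ Nrm s B d, ρ x = x := by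
    intro x hx
    refine hρ2 x fun e he => hx _ ?_
    rw [abs_lt]
    constructor <;> omega
  have hρB : ∀ x ∈ B, ρ x = x := by
    intro x hx
    refine hρ2 x fun e he => hi _ (by omega) ?_ x hx
    rw [abs_le]
    constructor <;> omega
  have hfixinv : ∀ x, ρ x = x → ρ⁻¹ x = x := fun x h => by
    calc ρ⁻¹ x = ρ⁻¹ (ρ x) := by rw [h]
      _ = x := inv_ap ρ x
  set β' : Fin k → Hm := fun i => ρ⁻¹ * β i * ρ with hβ'
  have hβ'G : ∀ i, β' i ∈ G := fun i => G.mul_mem (G.mul_mem (G.inv_mem hρG) (hβG i)) hρG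
  have hagree : ∀ i, ∀ x ∈ Nrm s B d, β' i x = β i x := by
    intro i x hx
    show ρ⁻¹ (β i (ρ x)) = β i x
    rw [hρN x hx]
    rcases A1 i x hx with h | h
    · have h' : β i x = x := h
      rw [h']
      exact hfixinv x (hρN x hx)
    · exact hfixinv _ (hρB _ h)
  have hspec : ∀ e < E, ∀ y ∈ B, β' (idx e) ((s ^ ((e : ℤ) + 1) : Hm) y) =
      (s ^ (-((e : ℤ) + 1)) : Hm) (τc e y) := by
    intro e he y hy
    show ρ⁻¹ (β (idx e) (ρ ((s ^ ((e : ℤ) + 1) : Hm) y))) = _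
    have h1 : ρ ((s ^ ((e : ℤ) + 1) : Hm) y) = (s ^ ((e : ℤ) + 1) : Hm) y := by
      refine hρ2 _ fun e' he' => ?_
      rw [zadd]
      refine hi _ (by omega) ?_ y hy
      rw [abs_le]
      constructor <;> omega
    have h2 : β (idx e) ((s ^ ((e : ℤ) + 1) : Hm) y) = (s ^ (-((e : ℤ) + 1)) : Hm) y := A3 e he y hy
    rw [h1, h2]
    have h3 : τc e y ∈ B := supp_in (hτs e) hy
    have h4 := hρ1 e he _ h3
    rw [inv_ap] at h4
    rw [← h4, inv_ap]
  refine ⟨γ1 * ρ, G.mul_mem hγ1 hρG, fun i => ?_⟩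
  have hconj : ((γ1 * ρ)⁻¹ * α i * (γ1 * ρ) : Hm) = β' i := by
    show ((γ1 * ρ)⁻¹ * α i * (γ1 * ρ) : Hm) = ρ⁻¹ * (γ1⁻¹ * α i * γ1) * ρ
    group
  rw [hconj]
  set H : Subgroup Hm := Subgroup.closure {β' i, s} with hH
  have hβH : β' i ∈ H := Subgroup.subset_closure (by simp)
  have hsH : s ∈ H := Subgroup.subset_closure (by simp)
  have wH : ∀ (t : Hm), t ∈ H → ∀ P, wrd t (β' i) d P L ∈ H := fun t ht P =>
    H.mul_mem (H.mul_mem hβH (H.pow_mem ht _))
      (H.mul_mem (H.pow_mem (H.mul_mem (H.pow_mem ht _) hβH) _) (H.pow_mem ht _))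
  -- the special words
  have hsp : ∀ c < q, ∃ w ∈ H, ∀ y ∈ B, w y = τc (i * q + c) y := by
    intro c hc
    have he : (i : ℕ) * q + c < E := by
      calc (i : ℕ) * q + c < i * q + q := by omega
        _ = (i + 1) * q := by ring
        _ ≤ k * q := Nat.mul_le_mul_right q i.2
    have hie : idx (i * q + c) = i := by
      apply Fin.ext
      simp only [hidx]
      rw [Nat.add_comm, Nat.add_mul_div_right _ _ (by omega), Nat.div_eq_of_lt hc, Nat.zero_add]
      exact Nat.mod_eq_of_lt i.2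
    refine ⟨s ^ ((((i : ℕ) * q + c : ℕ) : ℤ) + 1) * β' i * s ^ ((((i : ℕ) * q + c : ℕ) : ℤ) + 1),
      H.mul_mem (H.mul_mem (H.zpow_mem hsH _) hβH) (H.zpow_mem hsH _), fun y hy => ?_⟩
    show (s ^ ((((i : ℕ) * q + c : ℕ) : ℤ) + 1) : Hm) (β' i
      ((s ^ ((((i : ℕ) * q + c : ℕ) : ℤ) + 1) : Hm) y)) = _
    have := hspec _ he y hy
    rw [hie] at this
    rw [this, zadd, add_neg_cancel, zz]
  have hAlt : Alt G B ≤ H := by
    refine hgen H fun c hc => ?_
    have hmodc : ∀ c' < q, (i * q + c') % q = c' := by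
      intro c' hc'
      rw [Nat.add_comm, Nat.add_mul_mod_self_right]
      exact Nat.mod_eq_of_lt hc'
    have hidc : ∀ c' < q, idx (i * q + c') = i := by
      intro c' hc'
      apply Fin.ext
      simp only [hidx]
      rw [Nat.add_comm, Nat.add_mul_div_right _ _ (by omega), Nat.div_eq_of_lt hc', Nat.zero_add]
      exact Nat.mod_eq_of_lt i.2
    obtain ⟨w1, hw1, hw1'⟩ := hsp c (by omega)
    obtain ⟨w2, hw2, hw2'⟩ := hsp (c + (r + 1)) (by omega)
    obtain ⟨V1, hV1, hV1'⟩ := vact (H := H) hBF (w := wrd s (β i) d (k * ((i : ℕ) + 1)) L)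
      (w' := wrd s (β' i) d (k * ((i : ℕ) + 1)) L) (v := w1) (u := u c)
      (fun x hx => cF i (β' i) (hagree i) x hx) (hus c)
      (fun y hy => by
        rw [hw1' y hy]
        simp only [hτc]
        rw [hmodc c (by omega), if_pos (by omega), hidc c (by omega)]
        rfl) (wH s hsH _) hw1
    obtain ⟨V2, hV2, hV2'⟩ := vact (H := H) hBB (w := wrd s⁻¹ (β i) d (k * ((i : ℕ) + 1)) L)
      (w' := wrd s⁻¹ (β' i) d (k * ((i : ℕ) + 1)) L) (v := w2) (u := v c)
      (fun x hx => cB i (β' i) (hagree i) x hx) (hvs c)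
      (fun y hy => by
        rw [hw2' y hy]
        simp only [hτc]
        rw [hmodc (c + (r + 1)) (by omega), if_neg (by omega), hidc (c + (r + 1)) (by omega),
          Nat.add_sub_cancel]
        rfl) (wH s⁻¹ (H.inv_mem hsH) _) hw2
    have hcm : cm V1 V2 = cm (u c) (v c) := by
      refine TE2.cm_eq B V1 V2 (u c) (v c) (hus c) (hvs c) (fun w hw => hV1' w (hBF hw))
        (fun w hw => hV2' w (hBB hw)) fun w hw => ?_
      by_cases h : w ∈ FrF
      · left
        rw [hV1' w h, hus c w hw]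
      · right
        have h2 : w ∈ FrB := by
          simp only [hFrF, Set.mem_setOf_eq] at h
          push Not at h
          obtain ⟨n, n1, n2, n3⟩ := h
          intro m m1 m2 m3
          have h4 : (s ^ (n + m) : Hm) ((s⁻¹ ^ m : Hm) w) ∈ B := by
            rw [znat, znat s⁻¹, zinv, zadd]
            rw [znat] at n3
            rwa [show (((n + m : ℕ) : ℤ) + -(m : ℤ)) = (n : ℤ) by push_cast; ring]
          exact ind_nat hi (by omega) (by rw [hN]; push_cast; omega) m3 h4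
        rw [hV2' w h2, hvs c w hw]
    rw [← hcm]
    exact H.mul_mem (H.mul_mem (H.mul_mem hV1 hV2) (H.inv_mem hV1)) (H.inv_mem hV2)
  have hi2 := i.2
  have hfin := link hunion c_conj hv hs hsG (hβ'G i) hsH hβH hB hBne hAlt (((i : ℕ) + 1) * d)
    (fun b hb => by
      obtain ⟨e1, e2⟩ := tF i (((i : ℕ) + 1) * d) (hld ((i : ℕ) + 1) (by omega))
        (hle ((i : ℕ) + 1) (by omega)) (by rw [fp_mul hk hdpos, gp_a]) b hb
      rw [hagree i _ e1]
      exact e2)
    (fun b hb => by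
      have h1 : ((i : ℕ) + 1) * d + 1 ≤ N1 := by
        have h2 : ((i : ℕ) + 1 + 1) * d ≤ N1 := hle _ (by omega)
        have h3 : ((i : ℕ) + 1 + 1) * d = ((i : ℕ) + 1) * d + d := by ring
        omega
      have h4 : d ≤ ((i : ℕ) + 1) * d := hld _ (by omega)
      obtain ⟨e1, e2⟩ := tF i (((i : ℕ) + 1) * d + 1) (by omega) h1
        (by rw [fp_mul_add hk hd2, gp_a]) b hb
      rw [hagree i _ e1]
      exact e2)
    hcov
  rwa [htop G hv hs] at hfin

end Pool.Agent.H65SV
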