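import Pool.Agent.Helper106.VG.A

/-!
# Strong infinite uniform spread of simple vigorous groups: markers, hitting times, types
-/

set_option autoImplicit false

namespace Pool.Agent.H65SV

open Filter Topology Pool.Agent.Helper106.VG

theorem mul_ap (g h : Hm) (x : Cn) : (g * h) x = g (h x) := rfl

theorem one_ap (x : Cn) : (1 : Hm) x = x := rfl

theorem inv_ap (g : Hm) (x : Cn) : g⁻¹ (g x) = x := g.symm_apply_apply x

theorem ap_inv (g : Hm) (x : Cn) : g (g⁻¹ x) = x := g.apply_symm_apply x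

theorem zadd (s : Hm) (a b : ℤ) (x : Cn) : (s ^ a : Hm) ((s ^ b : Hm) x) = (s ^ (a + b) : Hm) x := by
  rw [zpow_add, mul_ap]

theorem znat (s : Hm) (a : ℕ) (x : Cn) : (s ^ a : Hm) x = (s ^ (a : ℤ) : Hm) x := by
  rw [zpow_natCast]

theorem zinv (s : Hm) (a : ℤ) (x : Cn) : (s⁻¹ ^ a : Hm) x = (s ^ (-a) : Hm) x := by
  rw [inv_zpow, zpow_neg]

theorem zz (s : Hm) (x : Cn) : (s ^ (0 : ℤ) : Hm) x = x := by
  rw [zpow_zero, one_ap]

/-- `B` is disjoint from its translates by `s ^ j`, `0 < |j| ≤ R` -/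
def Ind (s : Hm) (B : Set Cn) (R : ℤ) : Prop :=
  ∀ j : ℤ, j ≠ 0 → |j| ≤ R → ∀ x ∈ B, (s ^ j : Hm) x ∉ B

theorem Ind.inv {s : Hm} {B : Set Cn} {R : ℤ} (h : Ind s B R) : Ind s⁻¹ B R := by
  intro j hj hR x hx
  rw [zinv]
  exact h (-j) (neg_ne_zero.2 hj) (by rwa [abs_neg]) x hx

theorem aper_z {s : Hm} (hs : ∀ x, ∀ n : ℕ, 0 < n → (s ^ n : Hm) x ≠ x) (x : Cn) (j : ℤ)
    (hj : j ≠ 0) : (s ^ j : Hm) x ≠ x := by
  intro h
  rcases lt_or_gt_of_ne hj with hneg | hpos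
  · have h1 : (s ^ (-j) : Hm) ((s ^ j : Hm) x) = x := by rw [zadd]; simp [one_ap]
    rw [h] at h1
    obtain ⟨n, hn⟩ := Int.eq_ofNat_of_zero_le (show 0 ≤ -j by omega)
    rw [hn] at h1
    exact hs x n (by omega) (by rw [znat]; exact h1)
  · obtain ⟨n, hn⟩ := Int.eq_ofNat_of_zero_le (show 0 ≤ j by omega)
    rw [hn] at h
    exact hs x n (by omega) (by rw [znat]; exact h)

theorem sep_one (s : Hm) (x : Cn) (h : s x ≠ x) :
    ∃ O, IsOpen O ∧ x ∈ O ∧ ∀ y ∈ O, s y ∉ O := by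
  obtain ⟨U, V, hU, hV, hxU, hyV, hd⟩ := t2_separation h
  refine ⟨V ∩ s ⁻¹' U, hV.inter (hU.preimage s.continuous), ⟨hyV, hxU⟩, ?_⟩
  rintro y ⟨_, hy⟩ ⟨hy', _⟩
  exact Set.disjoint_left.1 hd hy hy'

/-- the marker lemma -/
theorem marker (s : Hm) (hs : ∀ x, ∀ n : ℕ, 0 < n → (s ^ n : Hm) x ≠ x) (N : ℕ) :
    ∃ B : Set Cn, IsClopen B ∧ Ind s B N ∧ ∀ x, ∃ j : ℤ, |j| ≤ N ∧ (s ^ j : Hm) x ∈ B := by
  have main : ∀ V : Set Cn, IsClopen V → ∀ B0 : Set Cn, IsClopen B0 → Ind s B0 N →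
      ∃ B : Set Cn, IsClopen B ∧ B0 ⊆ B ∧ Ind s B N ∧
        ∀ x ∈ V, ∃ j : ℤ, |j| ≤ N ∧ (s ^ j : Hm) x ∈ B := by
    refine a_ci (fun V => ∀ B0 : Set Cn, IsClopen B0 → Ind s B0 N →
      ∃ B : Set Cn, IsClopen B ∧ B0 ⊆ B ∧ Ind s B N ∧
        ∀ x ∈ V, ∃ j : ℤ, |j| ≤ N ∧ (s ^ j : Hm) x ∈ B) ?_ ?_ ?_
    · intro B0 h1 h2
      exact ⟨B0, h1, le_rfl, h2, fun x hx => absurd hx (Set.notMem_empty x)⟩
    · intro U V _ _ _ hU hV B0 h1 h2
      obtain ⟨B1, a1, a2, a3, a4⟩ := hU B0 h1 h2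
      obtain ⟨B2, b1, b2, b3, b4⟩ := hV B1 a1 a3
      refine ⟨B2, b1, a2.trans b2, b3, ?_⟩
      rintro x (hx | hx)
      · obtain ⟨j, hj, hjx⟩ := a4 x hx
        exact ⟨j, hj, b2 hjx⟩
      · exact b4 x hx
    · intro x
      have hO : ∀ j : ℤ, ∃ O : Set Cn, IsOpen O ∧ x ∈ O ∧ (j ≠ 0 → ∀ y ∈ O, (s ^ j : Hm) y ∉ O) := by
        intro j
        by_cases hj : j = 0
        · exact ⟨Set.univ, isOpen_univ, Set.mem_univ x, fun h => absurd hj h⟩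
        · obtain ⟨O, h1, h2, h3⟩ := sep_one (s ^ j) x (aper_z hs x j hj)
          exact ⟨O, h1, h2, fun _ => h3⟩
      choose O hO1 hO2 hO3 using hO
      have hfin : (Set.Icc (-(N : ℤ)) N).Finite := Set.finite_Icc _ _
      have hopen : IsOpen (⋂ j ∈ Set.Icc (-(N : ℤ)) N, O j) :=
        hfin.isOpen_biInter fun j _ => hO1 j
      obtain ⟨W, hW, hxW, hWO⟩ := TA.clopen_nhds (hopen.mem_nhds
        (Set.mem_iInter₂.2 fun j _ => hO2 j))
      refine ⟨W, hW, hxW, fun V hV hVW B0 h1 h2 => ?_⟩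
      set V' : Set Cn := V ∩ ⋂ j ∈ Set.Icc (-(N : ℤ)) N, (s ^ j : Hm) ⁻¹' B0ᶜ with hV'
      have hV'c : IsClopen V' := by
        refine hV.inter (hfin.isClopen_biInter fun j _ => ?_)
        exact h1.compl.preimage (s ^ j : Hm).continuous
      have hV'm : ∀ y, y ∈ V' ↔ y ∈ V ∧ ∀ j : ℤ, |j| ≤ N → (s ^ j : Hm) y ∉ B0 := by
        intro y
        rw [hV', Set.mem_inter_iff, Set.mem_iInter₂]
        refine and_congr Iff.rfl ⟨fun h j hj => h j ?_, fun h j hj => h j ?_⟩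
        · rwa [Set.mem_Icc, ← abs_le]
        · rwa [Set.mem_Icc, ← abs_le] at hj
      refine ⟨B0 ∪ V', h1.union hV'c, Set.subset_union_left, ?_, ?_⟩
      · rintro j hj hjN y (hy | hy) (hy' | hy')
        · exact h2 j hj hjN y hy hy'
        · refine ((hV'm _).1 hy').2 (-j) (by rwa [abs_neg]) ?_
          rw [zadd]
          simpa [one_ap] using hy
        · exact ((hV'm _).1 hy).2 j hjN hy'
        · have e1 := hWO (hVW ((hV'm _).1 hy).1)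
          have e2 := hWO (hVW ((hV'm _).1 hy').1)
          have hj' : j ∈ Set.Icc (-(N : ℤ)) N := by rwa [Set.mem_Icc, ← abs_le]
          exact hO3 j hj y (Set.mem_iInter₂.1 e1 j hj') (Set.mem_iInter₂.1 e2 j hj')
      · intro y hy
        by_cases h : ∃ j : ℤ, |j| ≤ N ∧ (s ^ j : Hm) y ∈ B0
        · obtain ⟨j, hj, hjy⟩ := h
          exact ⟨j, hj, Or.inl hjy⟩
        · push Not at h
          refine ⟨0, by simp, Or.inr ?_⟩
          rw [zz]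
          exact (hV'm y).2 ⟨hy, h⟩
  obtain ⟨B, h1, -, h2, h3⟩ := main Set.univ isClopen_univ ∅ isClopen_empty
    (fun j _ _ x hx => absurd hx (Set.notMem_empty x))
  exact ⟨B, h1, h2, fun x => h3 x (Set.mem_univ x)⟩

/-- every point comes back in both directions -/
def Rec (s : Hm) (B : Set Cn) : Prop := ∀ x, ∃ n : ℕ, 1 ≤ n ∧ (s ^ n : Hm) x ∈ B

theorem rec_of {s : Hm} {B : Set Cn} {N : ℕ}
    (h : ∀ x, ∃ j : ℤ, |j| ≤ N ∧ (s ^ j : Hm) x ∈ B) : Rec s B ∧ Rec s⁻¹ B := by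
  constructor
  · intro x
    obtain ⟨j, hj, hx⟩ := h ((s ^ ((N : ℤ) + 1) : Hm) x)
    rw [zadd] at hx
    rw [abs_le] at hj
    obtain ⟨n, hn⟩ := Int.eq_ofNat_of_zero_le (show 0 ≤ j + ((N : ℤ) + 1) by omega)
    refine ⟨n, by omega, ?_⟩
    rw [znat, ← hn]
    exact hx
  · intro x
    obtain ⟨j, hj, hx⟩ := h ((s ^ (-((N : ℤ) + 1)) : Hm) x)
    rw [zadd] at hx
    rw [abs_le] at hj
    obtain ⟨n, hn⟩ := Int.eq_ofNat_of_zero_le (show 0 ≤ -(j + -((N : ℤ) + 1)) by omega)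
    refine ⟨n, by omega, ?_⟩
    rw [znat, zinv, ← hn, neg_neg]
    exact hx

open Classical in
/-- the first hitting time of `B` -/
noncomputable def hit (s : Hm) (B : Set Cn) (x : Cn) : ℕ := sInf {n : ℕ | 1 ≤ n ∧ (s ^ n : Hm) x ∈ B}

theorem hit_spec {s : Hm} {B : Set Cn} (hr : Rec s B) (x : Cn) :
    1 ≤ hit s B x ∧ (s ^ (hit s B x) : Hm) x ∈ B := Nat.sInf_mem (hr x)

theorem hit_lt {s : Hm} {B : Set Cn} {x : Cn} {n : ℕ} (h1 : 1 ≤ n) (h : n < hit s B x) :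
    (s ^ n : Hm) x ∉ B := fun hx => Nat.notMem_of_lt_sInf h ⟨h1, hx⟩

theorem hit_le {s : Hm} {B : Set Cn} {x : Cn} {n : ℕ} (h1 : 1 ≤ n) (h : (s ^ n : Hm) x ∈ B) :
    hit s B x ≤ n := Nat.sInf_le ⟨h1, h⟩

theorem hit_eq {s : Hm} {B : Set Cn} (hr : Rec s B) {x : Cn} {n : ℕ} (h1 : 1 ≤ n)
    (h2 : (s ^ n : Hm) x ∈ B) (h3 : ∀ m, 1 ≤ m → m < n → (s ^ m : Hm) x ∉ B) : hit s B x = n := by
  refine le_antisymm (hit_le h1 h2) ?_
  by_contra h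
  push Not at h
  exact h3 _ (hit_spec hr x).1 h (hit_spec hr x).2

theorem hit_loc {s : Hm} {B : Set Cn} (hB : IsClopen B) (hr : Rec s B) :
    IsLocallyConstant (hit s B) := by
  rw [IsLocallyConstant.iff_eventually_eq]
  intro x
  have h1 : ∀ᶠ y in 𝓝 x, ∀ m ∈ Set.Iic (hit s B x), ((s ^ m : Hm) y ∈ B ↔ (s ^ m : Hm) x ∈ B) := by
    rw [Filter.eventually_all_finite (Set.finite_Iic _)]
    intro m _
    by_cases h : (s ^ m : Hm) x ∈ B
    · filter_upwards [(hB.2.preimage (s ^ m : Hm).continuous).mem_nhds h] with y hy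
      exact ⟨fun _ => h, fun _ => hy⟩
    · filter_upwards [(hB.compl.2.preimage (s ^ m : Hm).continuous).mem_nhds h] with y hy
      exact ⟨fun h' => absurd h' hy, fun h' => absurd h' h⟩
  filter_upwards [h1] with y hy
  obtain ⟨e1, e2⟩ := hit_spec hr x
  refine hit_eq hr e1 ((hy _ (Set.mem_Iic.2 le_rfl)).2 e2) fun m hm hm' => ?_
  rw [hy m (Set.mem_Iic.2 hm'.le)]
  exact hit_lt hm hm'

end Pool.Agent.H65SV
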