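import Pool.Agent.H65SV.Ty
import Pool.Agent.Helper106.VG.E3

/-!
# Strong infinite uniform spread: the placement
-/

set_option autoImplicit false

namespace Pool.Agent.H65SV

open Filter Topology Pool.Agent.Helper106.VG

/-- open sets on which the `α i` are the identity or have no fixed point -/
theorem opens' {k : ℕ} (α : Fin k → Hm) (hα : ∀ i, α i ≠ 1) (j : Fin k) :
    ∃ O : Set Cn, IsOpen O ∧ O.Nonempty ∧ (∀ w ∈ O, α j w ≠ w) ∧
      ∀ i, (∀ w ∈ O, α i w = w) ∨ (∀ w ∈ O, α i w ≠ w) := by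
  have base : ∃ x, α j x ≠ x := by
    by_contra h
    push Not at h
    exact hα j (Homeomorph.ext h)
  have main : ∀ s : Finset (Fin k), ∃ O : Set Cn, IsOpen O ∧ O.Nonempty ∧ (∀ w ∈ O, α j w ≠ w) ∧
      ∀ i ∈ s, (∀ w ∈ O, α i w = w) ∨ (∀ w ∈ O, α i w ≠ w) := by
    intro s
    induction s using Finset.induction_on with
    | empty =>
      exact ⟨{w | α j w ≠ w}, isOpen_ne_fun (α j).continuous continuous_id, base,
        fun w hw => hw, fun i hi => absurd hi (Finset.notMem_empty i)⟩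
    | insert i s _ ih =>
      obtain ⟨O, hO, hne, hfix, hs⟩ := ih
      by_cases h : ∀ w ∈ O, α i w = w
      · refine ⟨O, hO, hne, hfix, fun i' hi' => ?_⟩
        rcases Finset.mem_insert.1 hi' with rfl | hi'
        · exact Or.inl h
        · exact hs i' hi'
      · push Not at h
        obtain ⟨w, hw, hne'⟩ := h
        refine ⟨O ∩ {w | α i w ≠ w},
          hO.inter (isOpen_ne_fun (α i).continuous continuous_id), ⟨w, hw, hne'⟩,
          fun w hw => hfix w hw.1, fun i' hi' => ?_⟩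
        rcases Finset.mem_insert.1 hi' with rfl | hi'
        · exact Or.inr fun w hw => hw.2
        · rcases hs i' hi' with h' | h'
          · exact Or.inl fun w hw => h' w hw.1
          · exact Or.inr fun w hw => h' w hw.1
  obtain ⟨O, h1, h2, h3, h4⟩ := main Finset.univ
  exact ⟨O, h1, h2, h3, fun i => h4 i (Finset.mem_univ i)⟩

theorem lev_ne {s : Hm} {B : Set Cn} {R : ℤ} (hi : Ind s B R) {a b : ℤ} (hab : a ≠ b)
    (hR : |b - a| ≤ R) {x : Cn} (h1 : (s ^ a : Hm) x ∈ B) : (s ^ b : Hm) x ∉ B := by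
  have := hi (b - a) (by omega) hR _ h1
  rwa [zadd, sub_add_cancel] at this

theorem place (hT : C_top) (hC : C_ext) {G : Subgroup Hm} (hv : Vigorous G)
    (hs : IsSimpleGroup G) {k : ℕ} (hk : 0 < k)
    (α : Fin k → Hm) (hαG : ∀ i, α i ∈ G) (hα : ∀ i, α i ≠ 1) (s : Hm) (hsG : s ∈ G)
    (B : Set Cn) (hB : IsClopen B) (hBne : B.Nonempty) {E : ℕ} {R : ℤ}
    (hi : Ind s B R) (hR : 2 * (E : ℤ) + 2 ≤ R) (τ : Cn → Fin k) (hτ : IsLocallyConstant τ)
    (idx : ℕ → Fin k) :
    ∃ γ ∈ G, (∀ i, ∀ x ∈ Nrm s B (E + 1), (γ⁻¹ * α i * γ : Hm) x = x ∨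
        (γ⁻¹ * α i * γ : Hm) x ∈ B) ∧
      (∀ i, ∀ x ∈ Nrm s B (E + 1), τ x = i → (γ⁻¹ * α i * γ : Hm) x ∈ B) ∧
      ∀ e < E, ∀ y ∈ B, (γ⁻¹ * α (idx e) * γ : Hm) ((s ^ ((e : ℤ) + 1) : Hm) y) =
        (s ^ (-((e : ℤ) + 1)) : Hm) y := by
  classical
  choose O' hO1 hO2 hO3 hO4 using opens' α hα
  set O : ℕ → Set Cn := fun a => if h : a < k then O' ⟨a, h⟩ else {w | α (idx (a - k)) w ≠ w}
    with hO
  have hOk : ∀ (a : ℕ) (h : a < k), O a = O' ⟨a, h⟩ := fun a h => dif_pos h
  have hOe : ∀ e, O (k + e) = {w | α (idx e) w ≠ w} := by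
    intro e
    have : ¬ k + e < k := by omega
    rw [hO]
    simp only [dif_neg this, Nat.add_sub_cancel_left]
  set T : Set Hm := insert 1 (Set.range α) with hTdef
  have hTf : T.Finite := (Set.finite_range α).insert 1
  have hT1 : (1 : Hm) ∈ T := Set.mem_insert _ _
  have hTα : ∀ i, α i ∈ T := fun i => Set.mem_insert_of_mem _ ⟨i, rfl⟩
  have hOo : ∀ a < k + E, IsOpen (O a) := by
    intro a ha
    rcases Nat.lt_or_ge a k with h | h
    · rw [hOk a h]; exact hO1 _
    · obtain ⟨e, rfl⟩ := Nat.exists_eq_add_of_le h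
      rw [hOe]
      exact isOpen_ne_fun (α _).continuous continuous_id
  have hOn : ∀ a < k + E, (O a).Nonempty := by
    intro a ha
    rcases Nat.lt_or_ge a k with h | h
    · rw [hOk a h]; exact hO2 _
    · obtain ⟨e, rfl⟩ := Nat.exists_eq_add_of_le h
      rw [hOe]
      by_contra hh
      rw [Set.not_nonempty_iff_eq_empty] at hh
      refine hα (idx e) (Homeomorph.ext fun w => ?_)
      by_contra hw
      have : w ∈ ({w | α (idx e) w ≠ w} : Set Cn) := hw
      rw [hh] at this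
      exact this
  obtain ⟨x, hx1, hx2⟩ := TE3.pts a_room T hTf O (k + E) hOo hOn
  obtain ⟨U, hU1, hU2, hU3, hU4⟩ := TE3.nbh T hTf (k + E) x O hOo hx1
  have hBc : Bᶜ ≠ Set.univ := by
    intro h
    obtain ⟨b, hb⟩ := hBne
    exact (h ▸ Set.mem_univ b : b ∈ Bᶜ) hb
  have hc : ∀ a, ∃ c ∈ G, c '' Bᶜ ⊆ U a ∧ c '' Bᶜ ≠ U a := by
    intro a
    obtain ⟨c, h1, h2, _, h4⟩ := b_small G hv 1 Bᶜ (U a) hB.compl hBc (hU1 a) ⟨x a, hU2 a⟩
    refine ⟨c 0, h1 0, h2 0 (by omega), fun h => h4 ?_⟩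
    rw [← h]
    ext z
    simp
  choose c hcG hcU hcne using hc
  -- the pieces
  let ι : Type := Fin k ⊕ (Fin E ⊕ Fin E)
  let Z : ι → Set Cn := fun a => match a with
    | Sum.inl a => Nrm s B (E + 1) ∩ τ ⁻¹' {a}
    | Sum.inr (Sum.inl e) => {x | (s ^ (-((e : ℤ) + 1)) : Hm) x ∈ B}
    | Sum.inr (Sum.inr e) => {x | (s ^ ((e : ℤ) + 1) : Hm) x ∈ B}
  let γ : ι → Hm := fun a => match a with
    | Sum.inl a => c a
    | Sum.inr (Sum.inl e) => c (k + e)
    | Sum.inr (Sum.inr e) => α (idx e) * c (k + e) * s ^ (2 * ((e : ℤ) + 1))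
  let p : ι → ℕ := fun a => match a with
    | Sum.inl a => a
    | Sum.inr (Sum.inl e) => k + e
    | Sum.inr (Sum.inr e) => k + e
  let tt : ι → Hm := fun a => match a with
    | Sum.inl a => 1
    | Sum.inr (Sum.inl e) => 1
    | Sum.inr (Sum.inr e) => α (idx e)
  have hp : ∀ a, p a < k + E := by
    rintro (a | e | e)
    · exact lt_of_lt_of_le a.2 (by omega)
    · exact Nat.add_lt_add_left e.2 k
    · exact Nat.add_lt_add_left e.2 k
  have htt : ∀ a, tt a ∈ T := by
    rintro (a | e | e)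
    · exact hT1
    · exact hT1
    · exact hTα _
  have hxs : ∀ e : ℕ, e < E → α (idx e) (x (k + e)) ≠ x (k + e) := by
    intro e he
    have := hx1 (k + e) (by omega)
    rw [hOe] at this
    exact this
  have hPne : ∀ a b, a ≠ b → tt a (x (p a)) ≠ tt b (x (p b)) := by
    intro a b hab
    by_cases hpab : p a = p b
    · rcases a with a | e | e <;> rcases b with b | e' | e'
      · exact absurd (congrArg _ (Fin.ext hpab)) hab
      · have : (a : ℕ) = k + e' := hpab
        have := a.2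
        omega
      · have : (a : ℕ) = k + e' := hpab
        have := a.2
        omega
      · have : k + e = (b : ℕ) := hpab
        have := b.2
        omega
      · have h : k + (e : ℕ) = k + e' := hpab
        exact absurd (congrArg _ (congrArg _ (Fin.ext (Nat.add_left_cancel h)))) hab
      · have h : k + (e : ℕ) = k + e' := hpab
        have h' := Nat.add_left_cancel h
        show (1 : Hm) (x (k + e)) ≠ α (idx e') (x (k + e'))
        rw [h', one_ap]
        exact (hxs e' e'.2).symm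
      · have : k + e = (b : ℕ) := hpab
        have := b.2
        omega
      · have h : k + (e : ℕ) = k + e' := hpab
        have h' := Nat.add_left_cancel h
        show α (idx e) (x (k + e)) ≠ (1 : Hm) (x (k + e'))
        rw [← h', one_ap]
        exact hxs e e.2
      · have h : k + (e : ℕ) = k + e' := hpab
        exact absurd (congrArg _ (congrArg _ (Fin.ext (Nat.add_left_cancel h)))) hab
    · exact hx2 _ (hp a) _ (hp b) hpab _ (htt a) _ (htt b)
  have hPd : ∀ a b, a ≠ b → Disjoint (tt a '' U (p a)) (tt b '' U (p b)) := fun a b hab =>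
    hU4 _ (hp a) _ (hp b) _ (htt a) _ (htt b) (hPne a b hab)
  have hnotB : ∀ y ∈ Nrm s B (E + 1), y ∉ B := by
    intro y hy h
    have := hy 0 (by simp)
    rw [zz] at this
    exact this h
  have himg : ∀ a, γ a '' Z a ⊆ tt a '' U (p a) := by
    rintro (a | e | e) _ ⟨y, hy, rfl⟩
    · refine ⟨c a y, hcU a ⟨y, hnotB y hy.1, rfl⟩, rfl⟩
    · refine ⟨c (k + e) y, hcU (k + e) ⟨y, ?_, rfl⟩, rfl⟩
      have h1 : (s ^ (-((e : ℤ) + 1)) : Hm) y ∈ B := hy
      have he := e.2
      have h2 := lev_ne hi (a := -((e : ℤ) + 1)) (b := 0) (by omega)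
        (by rw [abs_le]; constructor <;> omega) h1
      rwa [zz] at h2
    · refine ⟨c (k + e) ((s ^ (2 * ((e : ℤ) + 1)) : Hm) y), hcU (k + e) ⟨_, ?_, rfl⟩, rfl⟩
      have h1 : (s ^ ((e : ℤ) + 1) : Hm) y ∈ B := hy
      have he := e.2
      exact lev_ne hi (a := ((e : ℤ) + 1)) (b := 2 * ((e : ℤ) + 1)) (by omega)
        (by rw [abs_le]; constructor <;> omega) h1
  have hNc : IsClopen (Nrm s B (E + 1)) := by
    have : Nrm s B (E + 1) = ⋂ j ∈ Set.Ioo (-((E : ℤ) + 1)) (E + 1), (s ^ j : Hm) ⁻¹' Bᶜ := by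
      ext y
      rw [Set.mem_iInter₂]
      constructor
      · intro h j hj
        exact h j (by rw [abs_lt]; push_cast; exact hj)
      · intro h j hj
        rw [abs_lt] at hj
        push_cast at hj
        exact h j hj
    rw [this]
    exact (Set.finite_Ioo _ _).isClopen_biInter fun j _ => hB.compl.preimage (s ^ j : Hm).continuous
  have hZc : ∀ a, IsClopen (Z a) := by
    rintro (a | e | e)
    · exact hNc.inter (hτ.isClopen_fiber a)
    · exact hB.preimage (s ^ (-((e : ℤ) + 1)) : Hm).continuous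
    · exact hB.preimage (s ^ ((e : ℤ) + 1) : Hm).continuous
  have hγG : ∀ a, γ a ∈ G := by
    rintro (a | e | e)
    · exact hcG _
    · exact hcG _
    · exact G.mul_mem (G.mul_mem (hαG _) (hcG _)) (G.zpow_mem hsG _)
  have hNl : ∀ y ∈ Nrm s B (E + 1), ∀ e : Fin E, (s ^ (-((e : ℤ) + 1)) : Hm) y ∉ B ∧
      (s ^ ((e : ℤ) + 1) : Hm) y ∉ B := by
    intro y hy e
    have he := e.2
    exact ⟨hy _ (by rw [abs_lt]; push_cast; constructor <;> omega),
      hy _ (by rw [abs_lt]; push_cast; constructor <;> omega)⟩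
  have hZd : ∀ a b, a ≠ b → Disjoint (Z a) (Z b) := by
    intro a b hab
    rw [Set.disjoint_left]
    rcases a with a | e | e <;> rcases b with b | e' | e' <;> intro y h1 h2
    · have e1 : τ y = a := h1.2
      have e2 : τ y = b := h2.2
      exact hab (congrArg _ (e1.symm.trans e2))
    · exact (hNl y h1.1 e').1 h2
    · exact (hNl y h1.1 e').2 h2
    · exact (hNl y h2.1 e).1 h1
    · have h1' : (s ^ (-((e : ℤ) + 1)) : Hm) y ∈ B := h1
      have he := e.2
      have he' := e'.2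
      refine lev_ne hi (a := -((e : ℤ) + 1)) (b := -((e' : ℤ) + 1)) ?_
        (by rw [abs_le]; constructor <;> omega) h1' h2
      intro h
      exact hab (congrArg _ (congrArg _ (Fin.ext (by omega))))
    · have h1' : (s ^ (-((e : ℤ) + 1)) : Hm) y ∈ B := h1
      have he := e.2
      have he' := e'.2
      exact lev_ne hi (a := -((e : ℤ) + 1)) (b := ((e' : ℤ) + 1)) (by omega)
        (by rw [abs_le]; constructor <;> omega) h1' h2
    · exact (hNl y h2.1 e).2 h1
    · have h1' : (s ^ ((e : ℤ) + 1) : Hm) y ∈ B := h1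
      have he := e.2
      have he' := e'.2
      exact lev_ne hi (a := ((e : ℤ) + 1)) (b := -((e' : ℤ) + 1)) (by omega)
        (by rw [abs_le]; constructor <;> omega) h1' h2
    · have h1' : (s ^ ((e : ℤ) + 1) : Hm) y ∈ B := h1
      have he := e.2
      have he' := e'.2
      refine lev_ne hi (a := ((e : ℤ) + 1)) (b := ((e' : ℤ) + 1)) ?_
        (by rw [abs_le]; constructor <;> omega) h1' h2
      intro h
      exact hab (congrArg _ (congrArg _ (Fin.ext (by omega))))
  have hZB : ∀ a, ∀ y ∈ Z a, y ∉ B := by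
    rintro (a | e | e) y hy hyB
    · exact hnotB y hy.1 hyB
    · have h1' : (s ^ (-((e : ℤ) + 1)) : Hm) y ∈ B := hy
      have he := e.2
      have h2 := lev_ne hi (a := -((e : ℤ) + 1)) (b := 0) (by omega)
        (by rw [abs_le]; constructor <;> omega) h1'
      rw [zz] at h2
      exact h2 hyB
    · have h1' : (s ^ ((e : ℤ) + 1) : Hm) y ∈ B := hy
      have he := e.2
      have h2 := lev_ne hi (a := ((e : ℤ) + 1)) (b := 0) (by omega)
        (by rw [abs_le]; constructor <;> omega) h1'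
      rw [zz] at h2
      exact h2 hyB
  have hcov : ∀ y, y ∉ B → ∃ a, y ∈ Z a := by
    intro y hy
    by_cases h : y ∈ Nrm s B (E + 1)
    · exact ⟨Sum.inl (τ y), h, rfl⟩
    · unfold Nrm at h
      simp only [Set.mem_setOf_eq] at h
      push Not at h
      obtain ⟨j, hj, hjy⟩ := h
      rw [abs_lt] at hj
      push_cast at hj
      rcases lt_trichotomy j 0 with h0 | h0 | h0
      · obtain ⟨n, hn⟩ := Int.eq_ofNat_of_zero_le (show 0 ≤ -j - 1 by omega)
        refine ⟨Sum.inr (Sum.inl ⟨n, by omega⟩), ?_⟩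
        show (s ^ (-((n : ℤ) + 1)) : Hm) y ∈ B
        rw [show -((n : ℤ) + 1) = j by omega]
        exact hjy
      · rw [h0, zz] at hjy
        exact absurd hjy hy
      · obtain ⟨n, hn⟩ := Int.eq_ofNat_of_zero_le (show 0 ≤ j - 1 by omega)
        refine ⟨Sum.inr (Sum.inr ⟨n, by omega⟩), ?_⟩
        show (s ^ ((n : ℤ) + 1) : Hm) y ∈ B
        rw [show ((n : ℤ) + 1) = j by omega]
        exact hjy
  obtain ⟨b0, hb0⟩ := hBne
  have hex : ∃ z, ∀ a, z ∉ γ a '' Z a := by
    have h1 : ∃ z ∈ U 0, z ∉ c 0 '' Bᶜ := by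
      by_contra h
      push Not at h
      exact hcne 0 (Set.Subset.antisymm (hcU 0) h)
    obtain ⟨z, hz1, hz2⟩ := h1
    refine ⟨z, fun a ha => ?_⟩
    by_cases h : a = Sum.inl ⟨0, hk⟩
    · subst h
      obtain ⟨y, hy, hyz⟩ := ha
      exact hz2 ⟨y, hnotB y hy.1, hyz⟩
    · have h2 := himg a ha
      exact Set.disjoint_left.1 (hPd a (Sum.inl ⟨0, hk⟩) h) h2 ⟨z, hz1, rfl⟩
  obtain ⟨t, htG, htz⟩ := TE3.glue hv hs hT hC Z γ hZc hγG hZd
    (fun a b hab => Set.disjoint_of_subset (himg a) (himg b) (hPd a b hab))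
    ⟨b0, fun a ha => hZB a b0 ha hb0⟩ hex
  have hback : ∀ z, (∀ a, z ∉ tt a '' U (p a)) → t⁻¹ z ∈ B := by
    intro z hz
    by_contra h
    obtain ⟨a, ha⟩ := hcov _ h
    refine hz a (himg a ⟨t⁻¹ z, ha, ?_⟩)
    rw [← htz a _ ha, ap_inv]
  have hmove : ∀ (i : Fin k) (a : Fin k), (∀ w ∈ U a, α i w = w) ∨
      ((∀ w ∈ O' a, α i w ≠ w) ∧ ∀ w ∈ U a, ∀ b, α i w ∉ tt b '' U (p b)) := by
    intro i a
    have hUO : U a ⊆ O' a := by
      have := hU3 a (lt_of_lt_of_le a.2 (by omega))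
      rwa [hOk a a.2] at this
    rcases hO4 a i with h | h
    · exact Or.inl fun w hw => h w (hUO hw)
    · refine Or.inr ⟨h, fun w hw b hb => ?_⟩
      have hxa : x a ∈ U a := hU2 a
      have hne : α i (x a) ≠ tt b (x (p b)) := by
        by_cases hpb : (a : ℕ) = p b
        · have hb' : b = Sum.inl a := by
            rcases b with b | e | e
            · exact congrArg _ (Fin.ext hpb.symm)
            · have : (a : ℕ) = k + e := hpb
              have := a.2
              omega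
            · have : (a : ℕ) = k + e := hpb
              have := a.2
              omega
          rw [hb']
          exact h _ (hUO hxa)
        · exact hx2 _ (lt_of_lt_of_le a.2 (by omega)) _ (hp b) hpb _ (hTα i) _ (htt b)
      exact Set.disjoint_left.1 (hU4 _ (lt_of_lt_of_le a.2 (by omega)) _ (hp b) _ (hTα i) _ (htt b)
        hne) ⟨w, hw, rfl⟩ hb
  have hnorm : ∀ y ∈ Nrm s B (E + 1), t y ∈ U (τ y) := by
    intro y hy
    have h1 : t y = c (τ y) y := htz (Sum.inl (τ y)) y ⟨hy, rfl⟩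
    rw [h1]
    exact hcU _ ⟨y, hnotB y hy, rfl⟩
  refine ⟨t, htG, ?_, ?_, ?_⟩
  · intro i y hy
    show t⁻¹ (α i (t y)) = y ∨ t⁻¹ (α i (t y)) ∈ B
    rcases hmove i (τ y) with h | ⟨_, h⟩
    · left
      rw [h _ (hnorm y hy), inv_ap]
    · right
      exact hback _ fun a => h _ (hnorm y hy) a
  · intro i y hy hyi
    show t⁻¹ (α i (t y)) ∈ B
    rcases hmove i (τ y) with h | ⟨_, h⟩
    · exfalso
      have h1 := h _ (hU2 _)
      have h2 : x (τ y) ∈ O' (τ y) := by
        have := hx1 (τ y) (lt_of_lt_of_le (τ y).2 (by omega))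
        rwa [hOk (τ y) (τ y).2] at this
      refine hO3 (τ y) _ h2 ?_
      rw [hyi] at h1 ⊢
      exact h1
    · exact hback _ fun a => h _ (hnorm y hy) a
  · intro e he y hy
    show t⁻¹ (α (idx e) (t ((s ^ ((e : ℤ) + 1) : Hm) y))) = _
    have h1 : t ((s ^ ((e : ℤ) + 1) : Hm) y) = c (k + e) ((s ^ ((e : ℤ) + 1) : Hm) y) := by
      refine htz (Sum.inr (Sum.inl ⟨e, he⟩)) _ ?_
      show (s ^ (-((e : ℤ) + 1)) : Hm) ((s ^ ((e : ℤ) + 1) : Hm) y) ∈ B
      rw [zadd, neg_add_cancel, zz]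
      exact hy
    have h2 : t ((s ^ (-((e : ℤ) + 1)) : Hm) y) =
        α (idx e) (c (k + e) ((s ^ (2 * ((e : ℤ) + 1)) : Hm) ((s ^ (-((e : ℤ) + 1)) : Hm) y))) := by
      refine htz (Sum.inr (Sum.inr ⟨e, he⟩)) _ ?_
      show (s ^ ((e : ℤ) + 1) : Hm) ((s ^ (-((e : ℤ) + 1)) : Hm) y) ∈ B
      rw [zadd, add_neg_cancel, zz]
      exact hy
    rw [zadd, show 2 * ((e : ℤ) + 1) + -((e : ℤ) + 1) = (e : ℤ) + 1 by ring, ← h1] at h2
    rw [← h2, inv_ap]

end Pool.Agent.H65SV
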