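import Pool.Agent.H65SV.Cmp

/-!
# Strong infinite uniform spread: the pattern of types
-/

set_option autoImplicit false

namespace Pool.Agent.H65SV

open Filter Topology Pool.Agent.Helper106.VG

/-- the pattern -/
def gp (k : ℕ) (hk : 0 < k) (l : ℕ) : Fin k :=
  if l ≤ k then ⟨(l - 1) % k, Nat.mod_lt _ hk⟩ else ⟨((l - 1) / k - 1) % k, Nat.mod_lt _ hk⟩

/-- the length of the windows -/
def Lc (k : ℕ) : ℕ := 2 * k * k + k + 2

theorem gp_a {k : ℕ} (hk : 0 < k) (i : Fin k) : gp k hk (i + 1) = i := by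
  unfold gp
  rw [if_pos (by omega)]
  apply Fin.ext
  simp only [Nat.add_sub_cancel]
  exact Nat.mod_eq_of_lt i.2

theorem gp_big {k : ℕ} (hk : 0 < k) (c r : ℕ) (hc : 1 ≤ c) (hr : r < k) (i : Fin k)
    (h : (c - 1) % k = i) : gp k hk (r + 1 + k * c) = i := by
  unfold gp
  have h1 : k * 1 ≤ k * c := Nat.mul_le_mul_left k hc
  rw [if_neg (by omega)]
  apply Fin.ext
  have h2 : (r + 1 + k * c - 1) / k = c := by
    rw [show r + 1 + k * c - 1 = r + k * c by omega, Nat.add_mul_div_left _ _ hk,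
      Nat.div_eq_of_lt hr]
    omega
  simp only [h2]
  exact h

theorem gp_b {k : ℕ} (hk : 0 < k) (i : Fin k) (l : ℕ) (h1 : 1 ≤ l) (h2 : l ≤ k) :
    gp k hk (l + k * (i + 1)) = i := by
  have := gp_big hk (i + 1) (l - 1) (by omega) (by omega) i (by
    simp only [Nat.add_sub_cancel]; exact Nat.mod_eq_of_lt i.2)
  rwa [show l - 1 + 1 = l by omega] at this

theorem gp_c {k : ℕ} (hk : 0 < k) (i : Fin k) (a : ℕ) : ∃ t, t < Lc k ∧ gp k hk (a + t) = i := by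
  set c := 1 + i + k * (a / (k * k) + 1) with hc
  have h := gp_big hk c 0 (by omega) hk i (by
    rw [hc, show 1 + (i : ℕ) + k * (a / (k * k) + 1) - 1 = i + k * (a / (k * k) + 1) by omega,
      Nat.add_mul_mod_self_left]
    exact Nat.mod_eq_of_lt i.2)
  have hkk : 0 < k * k := Nat.mul_pos hk hk
  have e1 : k * k * (a / (k * k)) + a % (k * k) = a := Nat.div_add_mod a (k * k)
  have e2 : a % (k * k) < k * k := Nat.mod_lt _ hkk
  have e3 : k * c = k + k * i + (k * k * (a / (k * k)) + k * k) := by rw [hc]; ring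
  have e4 : k * (i : ℕ) ≤ k * k := Nat.mul_le_mul_left k i.2.le
  refine ⟨0 + 1 + k * c - a, ?_, ?_⟩
  · unfold Lc
    have : 2 * k * k = 2 * (k * k) := by ring
    omega
  · rw [show a + (0 + 1 + k * c - a) = 0 + 1 + k * c by omega]
    exact h

/-- the type of a level -/
def fp (k : ℕ) (hk : 0 < k) (d n : ℕ) : Fin k := gp k hk (n / d)

theorem cap {k : ℕ} (hk : 0 < k) (i : Fin k) {d : ℕ} (hd : 0 < d) (A E : ℕ) (c : ℕ → Prop)
    (hc : ∀ t t', t ≤ t' → c t → c t') (F : ℕ → Fin k)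
    (h1 : ∀ t, 1 ≤ t → t ≤ 2 * Lc k → c t → F t = fp k hk d (E - t * d))
    (h2 : ∀ t, 1 ≤ t → t ≤ 2 * Lc k → ¬ c t → F t = fp k hk d (A + t * d))
    (hE : 2 * Lc k * d ≤ E) : ∃ t, 1 ≤ t ∧ t ≤ 2 * Lc k ∧ F t = i := by
  have hL : 1 ≤ Lc k := by unfold Lc; omega
  by_cases h : c (Lc k)
  · obtain ⟨t', ht', hg⟩ := gp_c hk i ((E - (2 * Lc k - 1) * d) / d)
    refine ⟨2 * Lc k - 1 - t', by omega, by omega, ?_⟩
    rw [h1 _ (by omega) (by omega) (hc _ _ (by omega) h)]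
    unfold fp
    rw [← hg]
    congr 1
    have e1 : (2 * Lc k - 1 - t') * d + t' * d = (2 * Lc k - 1) * d := by
      rw [← Nat.add_mul]; congr 1; omega
    have e2 : (2 * Lc k - 1) * d ≤ 2 * Lc k * d := Nat.mul_le_mul_right d (by omega)
    have e3 : E - (2 * Lc k - 1 - t') * d = E - (2 * Lc k - 1) * d + t' * d := by omega
    rw [e3, Nat.add_mul_div_right _ _ hd]
  · obtain ⟨t', ht', hg⟩ := gp_c hk i (A / d + 1)
    refine ⟨t' + 1, by omega, by omega, ?_⟩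
    rw [h2 _ (by omega) (by omega) (fun hh => h (hc _ _ (by omega) hh))]
    unfold fp
    rw [← hg, Nat.add_mul_div_right _ _ hd]
    congr 1
    omega

theorem hit_sub {s : Hm} {B : Set Cn} (hr : Rec s B) {x : Cn} {m : ℕ} (hm : m < hit s B x) :
    hit s B ((s ^ m : Hm) x) = hit s B x - m := by
  refine hit_eq hr (by omega) ?_ fun n h1 h2 => ?_
  · rw [nadd, show hit s B x - m + m = hit s B x by omega]
    exact (hit_spec hr x).2
  · rw [nadd]
    exact hit_lt (by omega) (by omega)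

theorem inv_nat (s : Hm) (a b : ℕ) (x : Cn) (h : a ≤ b) :
    (s⁻¹ ^ a : Hm) ((s ^ b : Hm) x) = (s ^ (b - a) : Hm) x := by
  rw [znat, zinv, znat s b, zadd, znat s (b - a)]
  congr 2
  omega

theorem inv_nat' (s : Hm) (a b : ℕ) (x : Cn) (h : b ≤ a) :
    (s⁻¹ ^ a : Hm) ((s ^ b : Hm) x) = (s⁻¹ ^ (a - b) : Hm) x := by
  rw [znat, zinv, znat s b, zadd, znat s⁻¹ (a - b), zinv]
  congr 2
  omega

open Classical in
/-- the hitting time from behind, `0` at the points of `B` -/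
noncomputable def hit0 (s : Hm) (B : Set Cn) (x : Cn) : ℕ := if x ∈ B then 0 else hit s B x

theorem hit_back {s : Hm} {B : Set Cn} (hr : Rec s⁻¹ B) {x : Cn} {m : ℕ}
    (h1 : 1 ≤ m) (hm : m < hit s B x) :
    hit s⁻¹ B ((s ^ m : Hm) x) = hit0 s⁻¹ B x + m := by
  unfold hit0
  by_cases hx : x ∈ B
  · rw [if_pos hx]
    refine hit_eq hr (by omega) ?_ fun n e1 e2 => ?_
    · rw [inv_nat s _ _ x (by omega), show m - (0 + m) = 0 by omega, pow_zero, one_ap]
      exact hx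
    · rw [inv_nat s _ _ x (by omega)]
      exact hit_lt (by omega) (by omega)
  · rw [if_neg hx]
    have e0 := hit_spec hr x
    refine hit_eq hr (by omega) ?_ fun n e1 e2 => ?_
    · rw [inv_nat' s _ _ x (by omega), show hit s⁻¹ B x + m - m = hit s⁻¹ B x by omega]
      exact e0.2
    · rcases lt_trichotomy n m with h | h | h
      · rw [inv_nat s _ _ x (by omega)]
        exact hit_lt (by omega) (by omega)
      · rw [h, inv_nat s _ _ x le_rfl, Nat.sub_self, pow_zero, one_ap]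
        exact hx
      · rw [inv_nat' s _ _ x (by omega)]
        exact hit_lt (by omega) (by omega)

open Classical in
/-- the type of a point -/
noncomputable def ty (s : Hm) (B : Set Cn) (k : ℕ) (hk : 0 < k) (d N1 : ℕ) (x : Cn) : Fin k :=
  if hit s B x ≤ N1 then fp k hk d (hit s B x) else fp k hk d (hit s⁻¹ B x)

theorem ty_loc {s : Hm} {B : Set Cn} (hB : IsClopen B) (hr : Rec s B) (hr' : Rec s⁻¹ B) (k : ℕ)
    (hk : 0 < k) (d N1 : ℕ) : IsLocallyConstant (ty s B k hk d N1) := by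
  have h1 := hit_loc hB hr
  have h2 := hit_loc hB hr'
  rw [IsLocallyConstant.iff_eventually_eq] at h1 h2 ⊢
  intro x
  filter_upwards [h1 x, h2 x] with y e1 e2
  unfold ty
  rw [e1, e2]

theorem ind_nat {s : Hm} {B : Set Cn} {R : ℤ} (hi : Ind s B R) {m : ℕ} (h1 : 1 ≤ m)
    (h2 : (m : ℤ) ≤ R) {b : Cn} (hb : b ∈ B) : (s ^ m : Hm) b ∉ B := by
  rw [znat]
  refine hi _ (by omega) ?_ b hb
  rw [abs_le]
  constructor <;> omega

theorem ty_fwd {s : Hm} {B : Set Cn} (hr : Rec s B) (hr' : Rec s⁻¹ B) {k : ℕ}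
    (hk : 0 < k) {d N1 m : ℕ} {R : ℤ} (hi : Ind s B R) (hR : 2 * (N1 : ℤ) ≤ R) (h1 : 1 ≤ m)
    (h2 : m ≤ N1) {b : Cn} (hb : b ∈ B) : ty s B k hk d N1 ((s ^ m : Hm) b) = fp k hk d m := by
  have e1 : ¬ hit s B ((s ^ m : Hm) b) ≤ N1 := by
    intro h
    obtain ⟨e2, e3⟩ := hit_spec hr ((s ^ m : Hm) b)
    rw [nadd] at e3
    exact ind_nat hi (by omega) (by push_cast; omega) hb e3
  have e4 : hit s⁻¹ B ((s ^ m : Hm) b) = m := by
    refine hit_eq hr' h1 ?_ fun n e1 e2 => ?_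
    · rw [inv_nat s _ _ b le_rfl, Nat.sub_self, pow_zero, one_ap]
      exact hb
    · rw [inv_nat s _ _ b (by omega)]
      exact ind_nat hi (by omega) (by push_cast; omega) hb
  unfold ty
  rw [if_neg e1, e4]

theorem ty_bwd {s : Hm} {B : Set Cn} (hr : Rec s B) {k : ℕ}
    (hk : 0 < k) {d N1 m : ℕ} {R : ℤ} (hi : Ind s B R) (hR : 2 * (N1 : ℤ) ≤ R) (h1 : 1 ≤ m)
    (h2 : m ≤ N1) {b : Cn} (hb : b ∈ B) : ty s B k hk d N1 ((s⁻¹ ^ m : Hm) b) = fp k hk d m := by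
  have e4 : hit s B ((s⁻¹ ^ m : Hm) b) = m := by
    refine hit_eq hr h1 ?_ fun n e1 e2 => ?_
    · have := inv_nat s⁻¹ m m b le_rfl
      rw [inv_inv] at this
      rw [this, Nat.sub_self, pow_zero, one_ap]
      exact hb
    · have := inv_nat s⁻¹ n m b (by omega)
      rw [inv_inv] at this
      rw [this]
      exact ind_nat hi.inv (by omega) (by push_cast; omega) hb
  unfold ty
  rw [e4, if_pos h2]

theorem capF {s : Hm} {B : Set Cn} (hr : Rec s B) (hr' : Rec s⁻¹ B) {k : ℕ}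
    (hk : 0 < k) {d N1 M : ℕ} (hd : 0 < d) (hM : 2 * Lc k * d ≤ M) (i : Fin k) (x : Cn)
    (hx : ∀ n, 1 ≤ n → n ≤ M → (s ^ n : Hm) x ∉ B) :
    ∃ t, 1 ≤ t ∧ t ≤ 2 * Lc k ∧ ty s B k hk d N1 ((s ^ (t * d) : Hm) x) = i := by
  have hE : M < hit s B x := by
    by_contra h
    obtain ⟨e1, e2⟩ := hit_spec hr x
    exact hx _ e1 (by omega) e2
  have hlt : ∀ t, t ≤ 2 * Lc k → t * d < hit s B x := fun t ht =>
    lt_of_le_of_lt ((Nat.mul_le_mul_right d ht).trans hM) hE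
  refine cap hk i hd (hit0 s⁻¹ B x) (hit s B x) (fun t => hit s B x - t * d ≤ N1) ?_ _ ?_ ?_
    (by omega)
  · intro t t' h h'
    have := Nat.mul_le_mul_right d h
    omega
  · intro t h1 h2 h3
    unfold ty
    rw [hit_sub hr (hlt t h2), if_pos h3]
  · intro t h1 h2 h3
    unfold ty
    rw [hit_sub hr (hlt t h2), if_neg h3, hit_back hr' (Nat.mul_pos h1 hd) (hlt t h2)]

theorem capB {s : Hm} {B : Set Cn} (hr : Rec s B) (hr' : Rec s⁻¹ B) {k : ℕ}
    (hk : 0 < k) {d N1 M : ℕ} (hd : 0 < d) (hM : 2 * Lc k * d ≤ M) (i : Fin k) (x : Cn)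
    (hx : ∀ n, 1 ≤ n → n ≤ M → (s⁻¹ ^ n : Hm) x ∉ B) :
    ∃ t, 1 ≤ t ∧ t ≤ 2 * Lc k ∧ ty s B k hk d N1 ((s⁻¹ ^ (t * d) : Hm) x) = i := by
  have hE : M < hit s⁻¹ B x := by
    by_contra h
    obtain ⟨e1, e2⟩ := hit_spec hr' x
    exact hx _ e1 (by omega) e2
  have hlt : ∀ t, t ≤ 2 * Lc k → t * d < hit s⁻¹ B x := fun t ht =>
    lt_of_le_of_lt ((Nat.mul_le_mul_right d ht).trans hM) hE
  have hback : ∀ t, 1 ≤ t → t ≤ 2 * Lc k →
      hit s B ((s⁻¹ ^ (t * d) : Hm) x) = hit0 s B x + t * d := by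
    intro t h1 h2
    have := hit_back (s := s⁻¹) (B := B) (by rwa [inv_inv]) (Nat.mul_pos h1 hd) (hlt t h2)
    rwa [inv_inv] at this
  refine cap hk i hd (hit0 s B x) (hit s⁻¹ B x) (fun t => ¬ hit0 s B x + t * d ≤ N1) ?_ _ ?_ ?_
    (by omega)
  · intro t t' h h'
    have := Nat.mul_le_mul_right d h
    omega
  · intro t h1 h2 h3
    unfold ty
    rw [hit_sub hr' (hlt t h2), hback t h1 h2, if_neg h3]
  · intro t h1 h2 h3
    unfold ty
    rw [hback t h1 h2, if_pos (not_not.1 h3)]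

end Pool.Agent.H65SV
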